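import Pool.Agent.H13.L.S8.W656.VB6
import Pool.Agent.H13.AA.All
import Pool.Agent.H13.AA.Zd

set_option autoImplicit false

noncomputable section

namespace Pool.Agent.Results.MP_95030e_al.AmenableAllOrNothing

/-- The kernel of right multiplication by the matrix `A` on `ℓ²(G)^m`. -/
def kernel {G : Type} [Group G] {m n : ℕ} (A : Matrix (Fin m) (Fin n) (G →₀ ℂ)) :
    Set (lp (fun _ : Fin m × G => ℂ) 2) :=
  {x | ∀ (j : Fin n) (g : G),
    ∑ i : Fin m, (A i j).sum (fun h c => x (i, g * h⁻¹) * c) = 0}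

open Classical in
/-- The von Neumann dimension of this kernel: the sum over `i` of one minus the squared distance
from the basis vector at `(i, 1)` to the kernel, that is, the trace of the projection onto the
kernel. -/
def kerDim {G : Type} [Group G] {m n : ℕ} (A : Matrix (Fin m) (Fin n) (G →₀ ℂ)) : ℝ :=
  ∑ i : Fin m, (1 - (Metric.infDist
    (lp.single 2 (i, (1 : G)) (1 : ℂ) : lp (fun _ : Fin m × G => ℂ) 2) (kernel A)) ^ 2)

/-- `G` is torsion-free. -/
def TorsionFree (G : Type) [Group G] : Prop := ∀ g : G, ∀ n : ℕ, 0 < n → g ^ n = 1 → g = 1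

/-- `G` is amenable (Følner's condition): for every finite set `S` and every `ε > 0` there is a
nonempty finite set `F` such that `F S` has at most `(1 + ε) |F|` elements. -/
def Amenable (G : Type) [Group G] : Prop :=
  ∀ (S : Finset G) (ε : ℝ), 0 < ε → ∃ F : Finset G, F.Nonempty ∧
    (Set.ncard {g : G | ∃ f ∈ F, ∃ s ∈ S, g = f * s} : ℝ) ≤ (1 + ε) * F.card

/-- `C` is a class of torsion-free groups which is closed under subgroups and isomorphisms
(injective homomorphisms into a member), direct products of two groups, directed unions (a group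
is in `C` if all its finitely generated subgroups are) and semidirect products with `ℤ`. -/
structure UnionClass (C : (G : Type) → [Group G] → Prop) : Prop where
  torsionFree : ∀ (G : Type) [Group G], C G → TorsionFree G
  subgroup : ∀ (G H : Type) [Group G] [Group H] (f : G →* H), Function.Injective f → C H → C G
  product : ∀ (G H : Type) [Group G] [Group H], C G → C H → C (G × H)
  union : ∀ (G : Type) [Group G], (∀ K : Subgroup G, K.FG → C K) → C G
  semidirect : ∀ (G : Type) [Group G] (s : MulAut G), C G →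
    C (G ⋊[zpowersHom (MulAut G) s] Multiplicative ℤ)

/-- `C` is closed under free products with free groups of finite rank. -/
def FreeClosed (C : (G : Type) → [Group G] → Prop) : Prop :=
  ∀ (G : Type) [Group G] (m : ℕ), C G → C (Monoid.Coprod G (FreeGroup (Fin m)))

/-- All kernel dimensions of the matrices over `R[G]` are integers. -/
def Atiyah (R : Subring ℂ) (G : Type) [Group G] : Prop :=
  ∀ (m n : ℕ) (A : Matrix (Fin m) (Fin n) (G →₀ ℂ)), (∀ i j g, A i j g ∈ R) →
    ∃ z : ℤ, kerDim A = z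

/-- The number `r` is not the kernel dimension of a matrix over `R[G]`. -/
def Omits (R : Subring ℂ) (G : Type) [Group G] (r : ℝ) : Prop :=
  ∀ (m n : ℕ) (A : Matrix (Fin m) (Fin n) (G →₀ ℂ)), (∀ i j g, A i j g ∈ R) → kerDim A ≠ r

open Pool.Agent Pool.Agent.H13.AA
open Pool.Agent.TH25.AD (VV tf_int fg_val_sub)
open Pool.Agent.H80R2.BC (vdim kerA)
open Pool.Agent.W656.VA (EV m1)

/-- the integers -/
def ZZ : Subring ℂ := (Int.castRingHom ℂ).range

theorem mem_ZZ (z : ℂ) : z ∈ ZZ ↔ ∃ n : ℤ, z = n := by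
  constructor
  · rintro ⟨n, rfl⟩
    exact ⟨n, rfl⟩
  · rintro ⟨n, rfl⟩
    exact ⟨n, rfl⟩

theorem conj_ZZ : ∀ z ∈ ZZ, (starRingEnd ℂ) z ∈ ZZ := by
  intro z hz
  obtain ⟨n, rfl⟩ := (mem_ZZ z).1 hz
  rw [mem_ZZ]
  exact ⟨n, by simp⟩

theorem cl {C : (G : Type) → [Group G] → Prop} (h : UnionClass C) : Cl C :=
  ⟨h.torsionFree, h.subgroup, h.product, h.union, h.semidirect⟩

theorem tf_of_isLcm {G : Type} [Group G] (h : W656.VA.IsLcm G 1) : TorsionFree G := by
  intro g n hn hg
  have h1 : IsOfFinOrder g := isOfFinOrder_iff_pow_eq_one.2 ⟨n, hn, hg⟩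
  have h2 : Finite (Subgroup.zpowers g) := (finite_zpowers.2 h1).to_subtype
  have h3 := h.2.1 (Subgroup.zpowers g) h2
  rw [Nat.card_zpowers, Nat.dvd_one, orderOf_eq_one_iff] at h3
  exact h3

theorem dvd_one_of_tf {G : Type} [Group G] (h : TorsionFree G) {d : ℕ} (hd : W656.VA.IsLcm G d) :
    d = 1 := by
  have h1 := hd.2.2 1 (fun K hK => (W656.VA.isLcm_one h).2.1 K hK)
  exact Nat.dvd_one.1 h1

/-! ### the two classes -/

theorem tf_sub {G H : Type} [Group G] [Group H] (f : G →* H) (hf : Function.Injective f)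
    (hH : TorsionFree H) : TorsionFree G := by
  intro g n hn hg
  apply hf
  rw [map_one]
  refine hH _ n hn ?_
  rw [← map_pow, hg, map_one]

theorem tf_prod {G H : Type} [Group G] [Group H] (hG : TorsionFree G) (hH : TorsionFree H) :
    TorsionFree (G × H) := by
  intro g n hn hg
  exact Prod.ext (hG _ n hn (congrArg Prod.fst hg)) (hH _ n hn (congrArg Prod.snd hg))

theorem tf_union {G : Type} [Group G] (h : ∀ K : Subgroup G, K.FG → TorsionFree K) :
    TorsionFree G := by
  intro g n hn hg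
  have h1 : (Subgroup.closure ({g} : Set G)).FG := ⟨{g}, by simp⟩
  have h2 := h _ h1 ⟨g, Subgroup.subset_closure rfl⟩ n hn (Subtype.ext hg)
  exact congrArg Subtype.val h2

theorem tf_semi {G : Type} [Group G] (s : MulAut G) (hG : TorsionFree G) :
    TorsionFree (G ⋊[zpowersHom (MulAut G) s] Multiplicative ℤ) := by
  intro g n hn hg
  have h1 : g.right = 1 := by
    refine tf_int _ n hn ?_
    have := congrArg SemidirectProduct.rightHom hg
    rw [map_pow, map_one] at this
    exact this
  have h2 : g = SemidirectProduct.inl g.left := by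
    apply SemidirectProduct.ext
    · rfl
    · rw [h1]
      rfl
  rw [h2, ← map_pow] at hg
  have h3 : g.left ^ n = 1 := by
    apply SemidirectProduct.inl_injective (φ := zpowersHom (MulAut G) s)
    rw [hg, map_one]
  rw [h2, hG _ n hn h3, map_one]

/-- The torsion-free groups form such a class. -/
theorem unionClass_torsionFree : UnionClass (fun (G : Type) [Group G] => TorsionFree G) :=
  ⟨fun _ _ h => h, fun _ _ _ _ f hf h => tf_sub f hf h, fun _ _ _ _ h h' => tf_prod h h',
    fun _ _ h => tf_union h, fun _ _ s h => tf_semi s h⟩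

theorem freeClosed_torsionFree : FreeClosed (fun (G : Type) [Group G] => TorsionFree G) := by
  intro G _ m hG
  show TorsionFree (Monoid.Coprod G (FreeGroup (Fin m)))
  exact tf_of_isLcm (W656.VA.IsLcm.coprod (G := G) (W656.VA.isLcm_one hG) m)

/-- The torsion-free amenable groups form such a class. -/
theorem unionClass_amenable :
    UnionClass (fun (G : Type) [Group G] => TorsionFree G ∧ Amenable G) :=
  ⟨fun _ _ h => h.1,
    fun _ _ _ _ f hf h => ⟨tf_sub f hf h.1, H13.AA.Amenable.sub f hf h.2⟩,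
    fun _ _ _ _ h h' => ⟨tf_prod h.1 h'.1, H13.AA.Amenable.prod h.2 h'.2⟩,
    fun _ _ h => ⟨tf_union fun K hK => (h K hK).1, H13.AA.Amenable.loc fun K hK => (h K hK).2⟩,
    fun _ _ s h => ⟨tf_semi s h.1, H13.AA.Amenable.semi h.2 _⟩⟩

/-! ### values -/

theorem val_mono {R R' : Subring ℂ} (h : R ≤ R') {G : Type} [Group G] {v : ℝ}
    (hv : W656.VA.Val R G v) : W656.VA.Val R' G v := by
  obtain ⟨m, n, A, hA, hv⟩ := hv
  exact ⟨m, n, A, fun k i g => h (hA k i g), hv⟩

theorem fg_value {C : (G : Type) → [Group G] → Prop} (hC : UnionClass C) {R : Subring ℂ}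
    {H : Type} [Group H] (hH : C H) {w : ℝ} (hv : W656.VA.Val R H w) :
    ∃ (H0 : Type) (_ : Group H0), C H0 ∧ Group.FG H0 ∧ W656.VA.Val R H0 w := by
  obtain ⟨K, hK, hv⟩ := fg_val_sub hv
  exact ⟨K, inferInstance, hC.subgroup K H K.subtype K.subtype_injective hH, hK, hv⟩

theorem ZZ_le (R : Subring ℂ) : ZZ ≤ R := by
  intro z hz
  obtain ⟨n, rfl⟩ := (mem_ZZ z).1 hz
  exact intCast_mem R n

theorem not_omits {R : Subring ℂ} {G : Type} [Group G] {r : ℝ} (h : W656.VA.Val R G r) :
    ¬ Omits R G r := by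
  intro h1
  obtain ⟨m, n, A, hA, hAr⟩ := W656.VA.exists_kerDim h
  exact h1 m n A hA hAr

/-- an element which is not regular: an integral element on a power of the group -/
theorem power_element {C : (G : Type) → [Group G] → Prop} (hC : UnionClass C) {G : Type}
    [Group G] (hG : C G) (α : G →₀ ℂ) (hα : α ≠ 0) (f : G → ℂ)
    (hf : Summable fun g => ‖f g‖ ^ 2) (hf0 : f ≠ 0)
    (h : ∀ g, α.sum (fun h c => c * f (h⁻¹ * g)) = 0) :
    ∃ (H : Type) (_ : Group H), C H ∧ ∃ D : H →₀ ℂ, (∀ h, ∃ n : ℤ, D h = n) ∧ D ≠ 0 ∧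
      ∃ F : H → ℂ, (Summable fun g => ‖F g‖ ^ 2) ∧ F ≠ 0 ∧
        ∀ g, D.sum (fun h c => c * F (h⁻¹ * g)) = 0 := by
  obtain ⟨k, D, hD, hD0, F, hF, hF0, h1⟩ := W656.VA.wedge α hα f hf hf0 h
  exact ⟨Fin k → G, inferInstance, (cl hC).piFin hG k (fun _ => G) (fun _ => hG), D, hD, hD0, F,
    hF, hF0, h1⟩

theorem sq_of_mem {G : Type} {f : G → ℂ} (hf : Memℓp f 2) : Summable fun g => ‖f g‖ ^ 2 := by
  have h1 := (memℓp_gen_iff (by norm_num : 0 < (2 : ENNReal).toReal)).1 hf
  simpa using h1

/-- all values, from an element which is not regular -/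
theorem all_of_element {C : (G : Type) → [Group G] → Prop} (hC : UnionClass C) {G : Type}
    [Group G] (hG : C G) (α : G →₀ ℂ) (hα : α ≠ 0) (f : G → ℂ)
    (hf : Summable fun g => ‖f g‖ ^ 2) (hf0 : f ≠ 0)
    (h : ∀ g, α.sum (fun h c => c * f (h⁻¹ * g)) = 0) (r : ℝ) (hr : 0 ≤ r) : VV C ZZ r := by
  obtain ⟨H, _, hH, D, hD, hD0, F, hF, hF0, h1⟩ := power_element hC hG α hα f hf hf0 h
  refine all_elt (cl hC) conj_ZZ hH (v := vdim (kerA (m1 D))) ?_
    (W656.VA.vdim_pos D F hF hF0 h1) (W656.VA.vdim_lt_one D hD0) r hr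
  exact ⟨D, fun g => (mem_ZZ _).2 (hD g), rfl⟩

theorem omits_some {C : (G : Type) → [Group G] → Prop} (hC : UnionClass C) (R : Subring ℂ)
    (hall : ∀ r : ℝ, 0 ≤ r → VV C ZZ r) :
    (¬ ∃ r : ℝ, 0 ≤ r ∧ ∀ (G : Type) [Group G], C G → Group.FG G → Omits R G r) ∧
      ¬ ∀ (G : Type) [Group G], C G → ∃ r : ℝ, 0 ≤ r ∧ Omits R G r := by
  constructor
  · rintro ⟨r, hr, h⟩
    obtain ⟨H, _, hH, hv⟩ := hall r hr
    obtain ⟨H0, _, hH0, hfg, hv0⟩ := fg_value hC hH (val_mono (ZZ_le R) hv)
    exact not_omits hv0 (h H0 hH0 hfg)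
  · intro h
    obtain ⟨H, _, hH, hv⟩ := one_grp (cl hC) hall
    obtain ⟨r, hr, h1⟩ := h H hH
    exact not_omits (val_mono (ZZ_le R) (hv r hr)) h1

theorem not_int_half (z : ℤ) : (z : ℝ) ≠ 1 / 2 := by
  intro hz
  have h1 : (2 * z : ℝ) = 1 := by linarith
  have h2 : 2 * z = 1 := by exact_mod_cast h1
  omega

theorem omits_half {R : Subring ℂ} {G : Type} [Group G] (h : Atiyah R G) : Omits R G (1 / 2) := by
  intro m n A hA hAr
  obtain ⟨z, hz⟩ := h m n A hA
  exact not_int_half z (hz.symm.trans hAr)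

theorem atiyah_mono {R R' : Subring ℂ} (hR : R ≤ R') {G : Type} [Group G] (h : Atiyah R' G) :
    Atiyah R G := fun m n A hA => h m n A fun i j g => hR (hA i j g)

/-- a zero divisor has a value between `0` and `1` -/
theorem nzd_of_atiyah {G : Type} [Group G] (h : Atiyah ⊤ G) :
    NoZeroDivisors (MonoidAlgebra ℂ G) := by
  refine ⟨fun {x y} hxy => ?_⟩
  by_contra hcon
  push Not at hcon
  obtain ⟨hx, hy⟩ := hcon
  have hx' : x.coeff ≠ 0 := fun h0 => hx (MonoidAlgebra.coeff_eq_zero.1 h0)
  have hy' : y.coeff ≠ 0 := fun h0 => hy (MonoidAlgebra.coeff_eq_zero.1 h0)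
  have h1 : Summable fun g => ‖y.coeff g‖ ^ 2 := by
    apply summable_of_hasFiniteSupport
    refine y.coeff.hasFiniteSupport.subset ?_
    intro g hg h0
    exact hg (by simp only [h0, norm_zero]; norm_num)
  have h2 := W656.VA.vdim_pos x.coeff (fun g => y.coeff g) h1 (fun h0 => hy' (by
    ext g
    exact congrFun h0 g)) (fun g => by
      rw [← mul_coeff, hxy]
      rfl)
  have h3 := W656.VA.vdim_lt_one x.coeff hx'
  obtain ⟨m, n, A, hA, hAr⟩ := W656.VA.exists_kerDim
    (W656.VA.val_of (R := ⊤) (m1 x.coeff) (fun _ _ _ => Subring.mem_top _))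
  obtain ⟨z, hz⟩ := h m n A hA
  have hAr' : kerDim A = vdim (kerA (m1 x.coeff)) := hAr
  rw [hAr'] at hz
  rw [hz] at h2 h3
  have h4 : 0 < z := by exact_mod_cast h2
  have h5 : z < 1 := by exact_mod_cast h3
  omega

/-- the integral group ring is a subring of the complex group ring -/
theorem nzd_int {G : Type} [Group G] (h : NoZeroDivisors (MonoidAlgebra ℂ G)) :
    NoZeroDivisors (MonoidAlgebra ℤ G) := by
  let φ : MonoidAlgebra ℤ G →+* MonoidAlgebra ℂ G :=
    MonoidAlgebra.mapRingHom G (Int.castRingHom ℂ)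
  have hφ : Function.Injective φ := by
    intro x y hxy
    apply MonoidAlgebra.ext
    ext g
    have h1 := DFunLike.congr_fun (congrArg MonoidAlgebra.coeff hxy) g
    have e : ∀ u : MonoidAlgebra ℤ G, (φ u).coeff g = ((u.coeff g : ℤ) : ℂ) := by
      intro u
      show (MonoidAlgebra.mapRingHom G (Int.castRingHom ℂ) u).coeff g = _
      rw [MonoidAlgebra.coeff_mapRingHom]
      rfl
    rw [e, e] at h1
    exact_mod_cast h1
  exact hφ.noZeroDivisors φ (map_zero φ) (map_mul φ)

theorem fol {G : Type} [Group G] (hG : Amenable G) : TH714.PF.Fol G := by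
  classical
  intro S ε hε
  obtain ⟨F, hF, hc⟩ := hG S ε hε
  refine ⟨F, hF, ?_⟩
  rw [set_eq, Set.ncard_coe_finset] at hc
  refine le_trans ?_ hc
  rw [Nat.cast_le]
  apply Finset.card_le_card
  intro x hx
  obtain ⟨a, ha, b, hb, rfl⟩ := Finset.mem_mul.1 hx
  exact Finset.mem_image.2 ⟨(a, b), Finset.mem_product.2 ⟨ha, hb⟩, rfl⟩

/-- for amenable groups with regular elements all values are integers -/
theorem atiyah_of_reg {G : Type} [Group G] (hG : Amenable G) (hreg : Reg G) (R : Subring ℂ) :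
    Atiyah R G := by
  intro m n A hA
  obtain ⟨m', n', B, hB, hv⟩ := W656.VA.val_kerDim A hA
  obtain ⟨z, hz⟩ := integral_reg hreg (fol hG) m' (Fin n')
    (Matrix.of fun k i => MonoidAlgebra.ofCoeff (B k i))
  rw [TH107.AT.kr_mop] at hz
  exact ⟨z, hv.symm.trans hz⟩

/-- an element which is not regular -/
theorem exists_element {G : Type} [Group G] (hG : Amenable G) {R : Subring ℂ}
    (h : ¬ Atiyah R G) : ∃ (α : G →₀ ℂ) (f : G → ℂ), α ≠ 0 ∧ (Summable fun g => ‖f g‖ ^ 2) ∧
      f ≠ 0 ∧ ∀ g, α.sum (fun h c => c * f (h⁻¹ * g)) = 0 := by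
  have h1 : ¬ Reg G := fun hreg => h (atiyah_of_reg hG hreg R)
  unfold Reg at h1
  push Not at h1
  obtain ⟨α, hα, h2⟩ := h1
  obtain ⟨f, hf, hf0, h3⟩ := W656.VA.exists_of_vdim_pos α h2
  exact ⟨α, f, hα, sq_of_mem hf, hf0, h3⟩

/-- If one value is not an integer, then all numbers are values with integer coefficients. -/
theorem all_values {C : (G : Type) → [Group G] → Prop} (hC : UnionClass C) (hF : FreeClosed C)
    (h : ¬ ∀ (G : Type) [Group G], C G → Atiyah ⊤ G) (r : ℝ) (hr : 0 ≤ r) : VV C ZZ r := by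
  obtain ⟨G, iG, hG, ρ, hρ, h0, h1⟩ : ∃ (G : Type) (_ : Group G), C G ∧
      ∃ ρ : ℝ, W656.VA.Val ZZ G ρ ∧ 0 < ρ ∧ ρ < 1 := by
    by_contra hno
    have key : ∀ (H : Type) [Group H], C H → ∀ d : ℕ, W656.VA.IsLcm H d → ∀ v : ℝ,
        W656.VA.Val ZZ H v → ∃ z : ℤ, (d : ℝ) * v = z := by
      intro H _ hH d hd v hv
      by_contra hz
      obtain ⟨m', ρ, hρ, h0, h1⟩ := W656.VA.val_small hd hv hz
      have hd1 := dvd_one_of_tf (hC.torsionFree H hH) hd
      rw [hd1, Nat.cast_one, one_mul] at h1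
      exact hno ⟨_, inferInstance, hF H m' hH, ρ, hρ, h0, h1⟩
    apply h
    intro G _ hG m n A hA
    obtain ⟨z, hz⟩ := W656.VA.base_change C (fun G H _ _ => hC.product G H)
      (fun G _ m hG => hF G m hG) ZZ key ⊤ G hG 1
      (W656.VA.isLcm_one (hC.torsionFree G hG)) _ (W656.VA.val_kerDim A hA)
    rw [Nat.cast_one, one_mul] at hz
    exact ⟨z, hz⟩
  exact all_free (cl hC) hF conj_ZZ ⟨G, iG, hG, hρ⟩ h0 h1 r hr

/-- **All or nothing for amenable groups.** The kernel dimension of a matrix `A` over `R[G]` is the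
von Neumann dimension of the kernel of the right multiplication by `A` on `ℓ²(G)^m`.

1. The torsion-free amenable groups form a `UnionClass`.

2. Let `C` be a `UnionClass` of amenable groups and let `R` be any subring of `ℂ`, for example `ℤ`
or `ℚ`. The following are equivalent.

(a) All kernel dimensions of the matrices over `ℂ[G]` are integers for all `G` in `C` (the Atiyah
conjecture over `ℂ`).
(b) All kernel dimensions of the matrices over `R[G]` are integers for all `G` in `C`.
(c) `ℂ[G]` has no zero divisors, for all `G` in `C`.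
(d) `ℤ[G]` has no zero divisors, for all `G` in `C`.
(e) Some real number `r ≥ 0` is not the kernel dimension of any matrix over `R[G]`, for any finitely
generated group `G` in `C`.
(f) For every group `G` in `C`, some real number `r ≥ 0` is not the kernel dimension of any matrix
over `R[G]`.

So if one torsion-free amenable group violates the Atiyah conjecture over `ℂ`, or the zero divisor
conjecture, then every real number `r ≥ 0` is the dimension of the kernel of a matrix over `ℤ[G]`
for some finitely generated torsion-free amenable group `G`, and there is one torsion-free amenable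
group for which every real number `r ≥ 0` occurs.

3. The torsion-free groups form a `UnionClass` closed under free products with free groups of finite
rank.

4. For every `UnionClass` closed under free products with free groups of finite rank, and every
subring `R` of `ℂ`, the statements (a), (b), (e), (f) are equivalent.

5. Let `C` be any `UnionClass`. If some real number `r ≥ 0` is not the kernel dimension of any
integer matrix, for any finitely generated group in `C`, then for all `G` in `C`, `α ≠ 0` in `ℂ[G]`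
and `f ∈ ℓ²(G)`, `α f = 0` implies `f = 0`. -/
theorem result :
    UnionClass (fun (G : Type) [Group G] => TorsionFree G ∧ Amenable G) ∧
    (∀ C : (G : Type) → [Group G] → Prop, UnionClass C →
      (∀ (G : Type) [Group G], C G → Amenable G) → ∀ R : Subring ℂ, List.TFAE [
        ∀ (G : Type) [Group G], C G → Atiyah ⊤ G,
        ∀ (G : Type) [Group G], C G → Atiyah R G,
        ∀ (G : Type) [Group G], C G → NoZeroDivisors (MonoidAlgebra ℂ G),
        ∀ (G : Type) [Group G], C G → NoZeroDivisors (MonoidAlgebra ℤ G),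
        ∃ r : ℝ, 0 ≤ r ∧ ∀ (G : Type) [Group G], C G → Group.FG G → Omits R G r,
        ∀ (G : Type) [Group G], C G → ∃ r : ℝ, 0 ≤ r ∧ Omits R G r]) ∧
    (UnionClass (fun (G : Type) [Group G] => TorsionFree G) ∧
      FreeClosed (fun (G : Type) [Group G] => TorsionFree G)) ∧
    (∀ C : (G : Type) → [Group G] → Prop, UnionClass C → FreeClosed C → ∀ R : Subring ℂ,
      List.TFAE [
        ∀ (G : Type) [Group G], C G → Atiyah ⊤ G,
        ∀ (G : Type) [Group G], C G → Atiyah R G,
        ∃ r : ℝ, 0 ≤ r ∧ ∀ (G : Type) [Group G], C G → Group.FG G → Omits R G r,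
        ∀ (G : Type) [Group G], C G → ∃ r : ℝ, 0 ≤ r ∧ Omits R G r]) ∧
    ∀ C : (G : Type) → [Group G] → Prop, UnionClass C →
      (∃ r : ℝ, 0 ≤ r ∧ ∀ (G : Type) [Group G], C G → Group.FG G → Omits ⊥ G r) →
      ∀ (G : Type) [Group G], C G → ∀ α : G →₀ ℂ, α ≠ 0 → ∀ f : G → ℂ, Memℓp f 2 →
        (∀ g, α.sum (fun h c => c * f (h⁻¹ * g)) = 0) → f = 0 := by
  refine ⟨unionClass_amenable, ?_, ⟨unionClass_torsionFree, freeClosed_torsionFree⟩, ?_, ?_⟩
  · intro C hC hA R
    have hall : ∀ {R' : Subring ℂ}, (¬ ∀ (G : Type) [Group G], C G → Atiyah R' G) →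
        (∀ r : ℝ, 0 ≤ r → VV C ZZ r) ∧
          ∃ (H : Type) (_ : Group H), C H ∧ ¬ NoZeroDivisors (MonoidAlgebra ℤ H) := by
      intro R' h
      push Not at h
      obtain ⟨G, _, hG, h1⟩ := h
      obtain ⟨α, f, hα, hf, hf0, h2⟩ := exists_element (hA G hG) h1
      refine ⟨all_of_element hC hG α hα f hf hf0 h2, ?_⟩
      obtain ⟨H, _, hH, D, hD, hD0, F, hF, hF0, h3⟩ := power_element hC hG α hα f hf hf0 h2
      obtain ⟨b, hb0, hb⟩ := exists_finite (hA H hH) D F
        (memℓp_gen (by simpa using hF)) hF0 h3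
      exact ⟨H, inferInstance, hH, zero_div D hD hD0 b hb0 hb⟩
    tfae_have 1 → 2 := fun h G _ hG => atiyah_mono le_top (h G hG)
    tfae_have 1 → 3 := fun h G _ hG => nzd_of_atiyah (h G hG)
    tfae_have 3 → 4 := fun h G _ hG => nzd_int (h G hG)
    tfae_have 4 → 1 := by
      intro h
      by_contra hno
      obtain ⟨H, _, hH, h1⟩ := (hall hno).2
      exact h1 (h H hH)
    tfae_have 2 → 5 := fun h => ⟨1 / 2, by norm_num, fun G _ hG _ => omits_half (h G hG)⟩
    tfae_have 2 → 6 := fun h G _ hG => ⟨1 / 2, by norm_num, omits_half (h G hG)⟩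
    tfae_have 5 → 1 := by
      intro h
      by_contra hno
      exact (omits_some hC R (hall hno).1).1 h
    tfae_have 6 → 1 := by
      intro h
      by_contra hno
      exact (omits_some hC R (hall hno).1).2 h
    tfae_finish
  · intro C hC hF R
    tfae_have 1 → 2 := fun h G _ hG => atiyah_mono le_top (h G hG)
    tfae_have 2 → 3 := fun h => ⟨1 / 2, by norm_num, fun G _ hG _ => omits_half (h G hG)⟩
    tfae_have 2 → 4 := fun h G _ hG => ⟨1 / 2, by norm_num, omits_half (h G hG)⟩
    tfae_have 3 → 1 := by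
      intro h
      by_contra hno
      exact (omits_some hC R (all_values hC hF hno)).1 h
    tfae_have 4 → 1 := by
      intro h
      by_contra hno
      exact (omits_some hC R (all_values hC hF hno)).2 h
    tfae_finish
  · intro C hC h G _ hG α hα f hf hf0
    by_contra hcon
    exact (omits_some hC ⊥ (all_of_element hC hG α hα f (sq_of_mem hf) hcon hf0)).1 h

end Pool.Agent.Results.MP_95030e_al.AmenableAllOrNothing
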