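import Pool.Agent.H57.AC.Fin
import Pool.Agent.Results.MP_95030e_al.AmenableAllOrNothing

/-!
# MP_95030e_al: the Atiyah conjecture and the nullities of cubic graphs

Let `G` be a group. We consider simple graphs `Γ` with a free action of `G` with finitely many orbits of
vertices, all of whose vertices have at most three neighbours; the set of vertices is written `Fin n × G`,
and `G` acts by left translation (`IsCubic Γ`). The nullity of `Γ` is the von Neumann dimension of the
kernel of the adjacency operator of `Γ` on the square summable functions on the set of vertices. It is the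
kernel dimension of one symmetric matrix over `ℤ[G]` with coefficients zero and one.

**Theorem.** (1) For every group `G` (with or without torsion), the nullities of these graphs are exactly the
von Neumann dimensions of the kernels of the matrices over `ℚ[G]`.

(2) The following are equivalent.
(a) The Atiyah conjecture over `ℂ` for all torsion-free groups.
(b) The Atiyah conjecture over `ℚ` for all torsion-free groups (Q1).
(c) The nullities of all these graphs, for all torsion-free groups `G`, are integers.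
(d) Some real number `r ≥ 0` is not the nullity of such a graph for a finitely generated torsion-free
group.

(3) The same is true with the torsion-free amenable groups, and then also the following is equivalent.
(e) The complex group rings of the torsion-free amenable groups have no zero divisors.

Proof of (1). Let `B` be an integer matrix over `G` with the given kernel dimension. The matrix
`(0 B; B* 0)` has a kernel of a different dimension; but if a triangle is joined to each column by one edge,
then the kernel becomes that of `B B*`, which is the kernel of `B` (`AC/TRI.lean`). Every row and every column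
is replaced by a long path: if two nodes of a path have a common neighbour of degree two, their values
are opposite, so that the values at the nodes of a path are `± x` with alternating signs; contraction of
the paths gives back the signed matrix (`AC/SCH.lean`, `AC/PID.lean`, `AC/CSC.lean`). If the entries of `B` are
written as sums of elements `± g`, each of them gets its own node, and one gets a simple graph of maximal
degree three whose edges have no signs (`AC/LIST.lean`, `AC/GOOD.lean`, `AC/DEG.lean`, `AC/FROM.lean`, `AC/GR.lean`).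
(2), (3) follow with the theorem `AmenableAllOrNothing`.
-/

set_option autoImplicit false

noncomputable section

namespace Pool.Agent.Results.MP_95030e_al.CubicGraphs

open Pool.Agent.H57.AC

/-- The kernel of right multiplication by the matrix `A` on `ℓ²(G)^m`. -/
def kernel {G : Type} [Group G] {m n : ℕ} (A : Matrix (Fin m) (Fin n) (G →₀ ℂ)) :
    Set (lp (fun _ : Fin m × G => ℂ) 2) :=
  {x | ∀ (j : Fin n) (g : G),
    ∑ i : Fin m, (A i j).sum (fun h c => x (i, g * h⁻¹) * c) = 0}

open Classical in
/-- The von Neumann dimension of this kernel: the sum over `i` of one minus the squared distance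
from the basis vector at `(i, 1)` to the kernel, that is, the trace of the projection onto the
kernel. -/
def kerDim {G : Type} [Group G] {m n : ℕ} (A : Matrix (Fin m) (Fin n) (G →₀ ℂ)) : ℝ :=
  ∑ i : Fin m, (1 - (Metric.infDist
    (lp.single 2 (i, (1 : G)) (1 : ℂ) : lp (fun _ : Fin m × G => ℂ) 2) (kernel A)) ^ 2)

/-- The coefficients of the entries of `A` are rational numbers. -/
def IsRational {G : Type} {m n : ℕ} (A : Matrix (Fin m) (Fin n) (G →₀ ℂ)) : Prop :=
  ∀ i j g, ∃ q : ℚ, A i j g = q

/-- `G` is torsion-free. -/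
def TorsionFree (G : Type) [Group G] : Prop := ∀ g : G, ∀ n : ℕ, 0 < n → g ^ n = 1 → g = 1

/-- `G` is amenable (Følner's condition): for every finite set `S` and every `ε > 0` there is a
nonempty finite set `F` such that `F S` has at most `(1 + ε) |F|` elements. -/
def Amenable (G : Type) [Group G] : Prop :=
  ∀ (S : Finset G) (ε : ℝ), 0 < ε → ∃ F : Finset G, F.Nonempty ∧
    (Set.ncard {g : G | ∃ f ∈ F, ∃ s ∈ S, g = f * s} : ℝ) ≤ (1 + ε) * F.card

open TH57.Thr.Ati hiding kerDim

theorem kerDim_kap {G : Type} [Group G] {m n : ℕ} (A : Matrix (Fin m) (Fin n) (G →₀ ℂ)) :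
    kerDim A = kap (A.map MonoidAlgebra.ofCoeff : Matrix (Fin m) (Fin n) (MonoidAlgebra ℂ G)) := by
  classical
  rw [← kerC_dim]
  unfold kerDim
  rfl

theorem exists_rat {G : Type} [Group G] {m n : ℕ} (A : Matrix (Fin m) (Fin n) (G →₀ ℂ))
    (hA : IsRational A) : ∃ A' : Matrix (Fin m) (Fin n) (G →₀ ℚ), kerDim A = kap (qC A') := by
  choose q hq using hA
  refine ⟨fun i j => Finsupp.onFinset (A i j).support (fun g => q i j g) ?_, ?_⟩
  · intro g hg
    rw [Finsupp.mem_support_iff, hq]
    exact_mod_cast hg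
  · rw [kerDim_kap]
    congr 1
    ext i j g
    rw [qC_coeff]
    exact hq i j g

/-- (1) -/
theorem dims {G : Type} [Group G] (r : ℝ) :
    (∃ (m n : ℕ) (A : Matrix (Fin m) (Fin n) (G →₀ ℂ)), IsRational A ∧ kerDim A = r) ↔
      ∃ (n : ℕ) (Γ : SimpleGraph (Fin n × G)), IsCubic Γ ∧ nullity Γ = r := by
  constructor
  · rintro ⟨m, n, A, hA, rfl⟩
    obtain ⟨A', hA'⟩ := exists_rat A hA
    obtain ⟨M, Γ, h1, h2⟩ := exists_graph_rat A'
    exact ⟨M, Γ, h1, h2.trans hA'.symm⟩
  · rintro ⟨M, Γ, h1, rfl⟩
    obtain ⟨A, hA⟩ := exists_mat Γ h1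
    refine ⟨M, M, fun i j => (A i j).mapRange (fun q : ℚ => (q : ℂ)) Rat.cast_zero,
      fun i j g => ⟨A i j g, rfl⟩, ?_⟩
    rw [kerDim_kap, ← hA]
    rfl

/-- the rational numbers -/
def QQ : Subring ℂ := (Rat.castHom ℂ).range

theorem mem_QQ (z : ℂ) : z ∈ QQ ↔ ∃ q : ℚ, z = q := by
  constructor
  · rintro ⟨q, rfl⟩
    exact ⟨q, rfl⟩
  · rintro ⟨q, rfl⟩
    exact ⟨q, rfl⟩

theorem atiyah_iff (G : Type) [Group G] : AmenableAllOrNothing.Atiyah QQ G ↔
    ∀ (m n : ℕ) (A : Matrix (Fin m) (Fin n) (G →₀ ℂ)), IsRational A → ∃ z : ℤ, kerDim A = z :=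
  ⟨fun h m n A hA => h m n A fun i j g => (mem_QQ _).2 (hA i j g),
    fun h m n A hA => h m n A fun i j g => (mem_QQ _).1 (hA i j g)⟩

theorem cubic_iff (G : Type) [Group G] :
    (∀ (m n : ℕ) (A : Matrix (Fin m) (Fin n) (G →₀ ℂ)), IsRational A → ∃ z : ℤ, kerDim A = z) ↔
      ∀ (n : ℕ) (Γ : SimpleGraph (Fin n × G)), IsCubic Γ → ∃ z : ℤ, nullity Γ = z := by
  constructor
  · intro h n Γ hΓ
    obtain ⟨m', n', A, hA, hAr⟩ := (dims (nullity Γ)).2 ⟨n, Γ, hΓ, rfl⟩
    obtain ⟨z, hz⟩ := h m' n' A hA
    exact ⟨z, hAr.symm.trans hz⟩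
  · intro h m n A hA
    obtain ⟨M, Γ, hΓ, hr⟩ := (dims (kerDim A)).1 ⟨m, n, A, hA, rfl⟩
    obtain ⟨z, hz⟩ := h M Γ hΓ
    exact ⟨z, hr.symm.trans hz⟩

theorem omits_iff (G : Type) [Group G] (r : ℝ) : AmenableAllOrNothing.Omits QQ G r ↔
    ∀ (n : ℕ) (Γ : SimpleGraph (Fin n × G)), IsCubic Γ → nullity Γ ≠ r := by
  constructor
  · intro h n Γ hΓ hr
    obtain ⟨m', n', A, hA, hAr⟩ := (dims r).2 ⟨n, Γ, hΓ, hr⟩
    exact h m' n' A (fun i j g => (mem_QQ _).2 (hA i j g)) hAr
  · intro h m n A hA hr
    obtain ⟨M, Γ, hΓ, hr'⟩ := (dims r).1 ⟨m, n, A, fun i j g => (mem_QQ _).1 (hA i j g), hr⟩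
    exact h M Γ hΓ hr'

theorem atiyah_top (G : Type) [Group G] : AmenableAllOrNothing.Atiyah ⊤ G ↔
    ∀ (m n : ℕ) (A : Matrix (Fin m) (Fin n) (G →₀ ℂ)), ∃ z : ℤ, kerDim A = z :=
  ⟨fun h m n A => h m n A fun _ _ _ => Subring.mem_top _, fun h m n A _ => h m n A⟩

/-- **The Atiyah conjecture and cubic graphs.** (1) For every group `G` the von Neumann dimensions of the
kernels of the matrices over `ℚ[G]` are exactly the nullities of the simple graphs of maximal degree three
with a free action of `G` with finitely many orbits of vertices. (2), (3) The Atiyah conjecture for the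
torsion-free groups, and for the torsion-free amenable groups, is equivalent to the integrality of these
nullities, and also to the statement that one real number `r ≥ 0` is omitted by them. -/
theorem result :
    (∀ (G : Type) [Group G] (r : ℝ),
      (∃ (m n : ℕ) (A : Matrix (Fin m) (Fin n) (G →₀ ℂ)), IsRational A ∧ kerDim A = r) ↔
        ∃ (n : ℕ) (Γ : SimpleGraph (Fin n × G)), IsCubic Γ ∧ nullity Γ = r) ∧
    [∀ (G : Type) [Group G], TorsionFree G → ∀ (m n : ℕ)
        (A : Matrix (Fin m) (Fin n) (G →₀ ℂ)), ∃ z : ℤ, kerDim A = z,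
      ∀ (G : Type) [Group G], TorsionFree G → ∀ (m n : ℕ)
        (A : Matrix (Fin m) (Fin n) (G →₀ ℂ)), IsRational A → ∃ z : ℤ, kerDim A = z,
      ∀ (G : Type) [Group G], TorsionFree G → ∀ (n : ℕ) (Γ : SimpleGraph (Fin n × G)),
        IsCubic Γ → ∃ z : ℤ, nullity Γ = z,
      ∃ r : ℝ, 0 ≤ r ∧ ∀ (G : Type) [Group G], TorsionFree G → Group.FG G →
        ∀ (n : ℕ) (Γ : SimpleGraph (Fin n × G)), IsCubic Γ → nullity Γ ≠ r].TFAE ∧
    [∀ (G : Type) [Group G], TorsionFree G ∧ Amenable G → ∀ (m n : ℕ)
        (A : Matrix (Fin m) (Fin n) (G →₀ ℂ)), ∃ z : ℤ, kerDim A = z,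
      ∀ (G : Type) [Group G], TorsionFree G ∧ Amenable G → ∀ (m n : ℕ)
        (A : Matrix (Fin m) (Fin n) (G →₀ ℂ)), IsRational A → ∃ z : ℤ, kerDim A = z,
      ∀ (G : Type) [Group G], TorsionFree G ∧ Amenable G → ∀ (n : ℕ)
        (Γ : SimpleGraph (Fin n × G)), IsCubic Γ → ∃ z : ℤ, nullity Γ = z,
      ∃ r : ℝ, 0 ≤ r ∧ ∀ (G : Type) [Group G], TorsionFree G ∧ Amenable G → Group.FG G →
        ∀ (n : ℕ) (Γ : SimpleGraph (Fin n × G)), IsCubic Γ → nullity Γ ≠ r,
      ∀ (G : Type) [Group G], TorsionFree G ∧ Amenable G →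
        NoZeroDivisors (MonoidAlgebra ℂ G)].TFAE := by
  refine ⟨fun G _ r => dims r, ?_, ?_⟩
  · have T := AmenableAllOrNothing.result.2.2.2.1
      (fun (G : Type) [Group G] => AmenableAllOrNothing.TorsionFree G)
      AmenableAllOrNothing.result.2.2.1.1 AmenableAllOrNothing.result.2.2.1.2 QQ
    tfae_have 1 ↔ 2 := by
      have h := T.out 0 1
      constructor
      · intro h1 G _ hG
        exact (atiyah_iff G).1 (h.1 (fun G _ hG => (atiyah_top G).2 (h1 G hG)) G hG)
      · intro h1 G _ hG
        exact (atiyah_top G).1 (h.2 (fun G _ hG => (atiyah_iff G).2 (h1 G hG)) G hG)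
    tfae_have 2 ↔ 3 := forall_congr' fun G => forall_congr' fun _ => imp_congr_right fun _ =>
      cubic_iff G
    tfae_have 2 ↔ 4 := by
      have h := T.out 1 2
      constructor
      · intro h1
        obtain ⟨r, hr, h2⟩ := h.1 fun G _ hG => (atiyah_iff G).2 (h1 G hG)
        exact ⟨r, hr, fun G _ hG hf => (omits_iff G r).1 (h2 G hG hf)⟩
      · rintro ⟨r, hr, h2⟩ G _ hG
        exact (atiyah_iff G).1 (h.2 ⟨r, hr, fun G _ hG hf => (omits_iff G r).2 (h2 G hG hf)⟩ G hG)
    tfae_finish
  · have T := AmenableAllOrNothing.result.2.1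
      (fun (G : Type) [Group G] => AmenableAllOrNothing.TorsionFree G ∧
        AmenableAllOrNothing.Amenable G)
      AmenableAllOrNothing.result.1 (fun G _ hG => hG.2) QQ
    tfae_have 1 ↔ 2 := by
      have h := T.out 0 1
      constructor
      · intro h1 G _ hG
        exact (atiyah_iff G).1 (h.1 (fun G _ hG => (atiyah_top G).2 (h1 G hG)) G hG)
      · intro h1 G _ hG
        exact (atiyah_top G).1 (h.2 (fun G _ hG => (atiyah_iff G).2 (h1 G hG)) G hG)
    tfae_have 2 ↔ 3 := forall_congr' fun G => forall_congr' fun _ => imp_congr_right fun _ =>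
      cubic_iff G
    tfae_have 2 ↔ 4 := by
      have h := T.out 1 4
      constructor
      · intro h1
        obtain ⟨r, hr, h2⟩ := h.1 fun G _ hG => (atiyah_iff G).2 (h1 G hG)
        exact ⟨r, hr, fun G _ hG hf => (omits_iff G r).1 (h2 G hG hf)⟩
      · rintro ⟨r, hr, h2⟩ G _ hG
        exact (atiyah_iff G).1 (h.2 ⟨r, hr, fun G _ hG hf => (omits_iff G r).2 (h2 G hG hf)⟩ G hG)
    tfae_have 2 ↔ 5 := by
      have h := T.out 1 2
      constructor
      · intro h1
        exact h.1 fun G _ hG => (atiyah_iff G).2 (h1 G hG)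
      · intro h1 G _ hG
        exact (atiyah_iff G).1 (h.2 h1 G hG)
    tfae_finish

end Pool.Agent.Results.MP_95030e_al.CubicGraphs
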