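import Pool.Agent.Results.MP_95030e_al.AmenableAllOrNothing
import Pool.Agent.H13.SF.Cls
import Pool.Agent.H13.SF.Lim
import Pool.Agent.H13.SF.TwoGen

set_option autoImplicit false

open Filter Topology

noncomputable section

namespace Pool.Agent.Results.MP_95030e_al.FinitePermutations

/-- The kernel of right multiplication by the matrix `A` on `ℓ²(G)^m`. -/
def kernel {G : Type} [Group G] {m n : ℕ} (A : Matrix (Fin m) (Fin n) (G →₀ ℂ)) :
    Set (lp (fun _ : Fin m × G => ℂ) 2) :=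
  {x | ∀ (j : Fin n) (g : G),
    ∑ i : Fin m, (A i j).sum (fun h c => x (i, g * h⁻¹) * c) = 0}

open Classical in
/-- The von Neumann dimension of this kernel: the sum over `i` of one minus the squared distance
from the basis vector at `(i, 1)` to the kernel, that is, the trace of the projection onto the
kernel. -/
def kerDim {G : Type} [Group G] {m n : ℕ} (A : Matrix (Fin m) (Fin n) (G →₀ ℂ)) : ℝ :=
  ∑ i : Fin m, (1 - (Metric.infDist
    (lp.single 2 (i, (1 : G)) (1 : ℂ) : lp (fun _ : Fin m × G => ℂ) 2) (kernel A)) ^ 2)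

/-- `G` is torsion-free. -/
def TorsionFree (G : Type) [Group G] : Prop := ∀ g : G, ∀ n : ℕ, 0 < n → g ^ n = 1 → g = 1

/-- `G` is sofic: for every finite set `A` containing `1` and every `ε > 0` there are `n ≥ 1` and a
map `φ` from `G` to the permutations of `n` points with `φ 1 = 1` which is multiplicative on `A` up
to `ε` and such that `φ a` moves a proportion of at least `1 - ε` of the points for every `a ≠ 1`
in `A`. -/
def Sofic (G : Type) [Group G] : Prop :=
  ∀ (A : Finset G), (1 : G) ∈ A → ∀ ε : ℝ, 0 < ε →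
    ∃ n : ℕ, 1 ≤ n ∧ ∃ φ : G → Equiv.Perm (Fin n), φ 1 = 1 ∧
      (∀ a ∈ A, ∀ b ∈ A, a * b ∈ A →
        ({x | φ (a * b) x ≠ φ a (φ b x)}.ncard : ℝ) / n < ε) ∧
      ∀ a ∈ A, a ≠ 1 → 1 - ε ≤ ({x | φ a x ≠ x}.ncard : ℝ) / n

/-- `G` is generated by two elements. -/
def TwoGenerated (G : Type) [Group G] : Prop := ∃ a b : G, Subgroup.closure {a, b} = ⊤

/-- All kernel dimensions of the matrices over `R[G]` are integers. -/
def Atiyah (R : Subring ℂ) (G : Type) [Group G] : Prop :=
  ∀ (m n : ℕ) (A : Matrix (Fin m) (Fin n) (G →₀ ℂ)), (∀ i j g, A i j g ∈ R) →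
    ∃ z : ℤ, kerDim A = z

/-- The number `r` is not the kernel dimension of a matrix over `R[G]`. -/
def Omits (R : Subring ℂ) (G : Type) [Group G] (r : ℝ) : Prop :=
  ∀ (m n : ℕ) (A : Matrix (Fin m) (Fin n) (G →₀ ℂ)), (∀ i j g, A i j g ∈ R) → kerDim A ≠ r

/-- The image over `ℂ[G]` of a matrix `A` over the integral group ring of the free group of rank
`k`, for a homomorphism `π` from the free group to `G`. -/
def image {G : Type} [Group G] {k m n : ℕ} (π : FreeGroup (Fin k) →* G)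
    (A : Matrix (Fin m) (Fin n) (FreeGroup (Fin k) →₀ ℤ)) : Matrix (Fin m) (Fin n) (G →₀ ℂ) :=
  fun i j => ((A i j).mapDomain π).mapRange (fun z : ℤ => (z : ℂ)) Int.cast_zero

section perm
variable {k N m n : ℕ}

/-- The proportion of the points moved by the word `w` in the permutations `σ`. -/
def moved (σ : Fin k → Equiv.Perm (Fin N)) (w : FreeGroup (Fin k)) : ℝ :=
  ({x | FreeGroup.lift σ w x ≠ x}.ncard : ℝ) / N

/-- The permutations `σ` of at least `j` points are almost torsion-free up to the length `j`: every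
word of length at most `j` moves a proportion of at most `1 / (j + 1)` or of at least
`1 - 1 / (j + 1)` of the points, and if this proportion is at most `1 / (j + 1)` for a power
`w ^ p`, `p > 0`, where `w` and `w ^ p` have length at most `j`, then it is for `w`. -/
def AlmostTorsionFree (j : ℕ) (σ : Fin k → Equiv.Perm (Fin N)) : Prop :=
  j ≤ N ∧ (∀ w : FreeGroup (Fin k), w.norm ≤ j →
    moved σ w ≤ 1 / ((j : ℝ) + 1) ∨ 1 - 1 / ((j : ℝ) + 1) ≤ moved σ w) ∧
  ∀ (w : FreeGroup (Fin k)) (p : ℕ), 0 < p → w.norm ≤ j → (w ^ p).norm ≤ j →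
    moved σ (w ^ p) ≤ 1 / ((j : ℝ) + 1) → moved σ w ≤ 1 / ((j : ℝ) + 1)

/-- The real vectors `v` on `Fin N × Fin m` which solve the finite system of linear equations
`∑ i, ∑ w, (A i j) w * v (w x, i) = 0`, one for each point `x` and each column `j`. -/
def solutions (σ : Fin k → Equiv.Perm (Fin N))
    (A : Matrix (Fin m) (Fin n) (FreeGroup (Fin k) →₀ ℤ)) : Submodule ℝ (Fin N × Fin m → ℝ) where
  carrier := {v | ∀ (x : Fin N) (j : Fin n),
    ∑ i, (A i j).sum (fun w c => (c : ℝ) * v (FreeGroup.lift σ w x, i)) = 0}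
  zero_mem' := by
    intro x j
    simp
  add_mem' := by
    intro v w hv hw x j
    have h1 := hv x j
    have h2 := hw x j
    simp only [Pi.add_apply, mul_add, Finsupp.sum_add]
    rw [Finset.sum_add_distrib, h1, h2, add_zero]
  smul_mem' := by
    intro t v hv x j
    have h1 := hv x j
    simp only [Pi.smul_apply, smul_eq_mul]
    have e : ∀ i, (A i j).sum (fun w c => (c : ℝ) * (t * v (FreeGroup.lift σ w x, i))) =
        t * (A i j).sum (fun w c => (c : ℝ) * v (FreeGroup.lift σ w x, i)) := by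
      intro i
      rw [Finsupp.sum, Finsupp.sum, Finset.mul_sum]
      refine Finset.sum_congr rfl fun w _ => ?_
      ring
    simp only [e]
    rw [← Finset.mul_sum, h1, mul_zero]

/-- The normalized nullity: the dimension of the space of solutions divided by the number of the
points. -/
def nullity (σ : Fin k → Equiv.Perm (Fin N))
    (A : Matrix (Fin m) (Fin n) (FreeGroup (Fin k) →₀ ℤ)) : ℝ :=
  (Module.finrank ℝ (solutions σ A) : ℝ) / N

/-- The number `r` is not a limit of the nullities of `A` along permutations which are more and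
more torsion-free. -/
def NotALimit (A : Matrix (Fin m) (Fin n) (FreeGroup (Fin k) →₀ ℤ)) (r : ℝ) : Prop :=
  ∃ (ε : ℝ) (j : ℕ), 0 < ε ∧ ∀ (N : ℕ) (σ : Fin k → Equiv.Perm (Fin N)),
    AlmostTorsionFree j σ → ε ≤ |nullity σ A - r|

end perm

open Pool.Agent Pool.Agent.H13.AA Pool.Agent.H13.SF
open Pool.Agent.TH25.AD (VV)

theorem isSofic_iff {G : Type} [Group G] : Sofic G ↔ Pool.Agent.H21R2.IsSofic G := by
  unfold Sofic Pool.Agent.H21R2.IsSofic
  simp only [hamm_eq]
  rfl

/-! ### the class of the torsion-free sofic groups -/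

/-- the class -/
def TS (G : Type) [Group G] : Prop := TorsionFree G ∧ Pool.Agent.H21R2.IsSofic G

theorem unionClass : AmenableAllOrNothing.UnionClass (fun (G : Type) [Group G] => TS G) :=
  ⟨fun _ _ h => h.1,
    fun _ _ _ _ f hf h => ⟨AmenableAllOrNothing.tf_sub f hf h.1, sofic_sub f hf h.2⟩,
    fun _ _ _ _ h h' => ⟨AmenableAllOrNothing.tf_prod h.1 h'.1, sofic_prod h.2 h'.2⟩,
    fun _ _ h => ⟨AmenableAllOrNothing.tf_union fun K hK => (h K hK).1,
      sofic_union fun K hK => (h K hK).2⟩,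
    fun _ _ s h => ⟨AmenableAllOrNothing.tf_semi s h.1, sofic_semi h.2 _⟩⟩

theorem freeClosed : AmenableAllOrNothing.FreeClosed (fun (G : Type) [Group G] => TS G) :=
  fun G _ m h => ⟨AmenableAllOrNothing.freeClosed_torsionFree G m h.1, sofic_free h.2 m⟩

/-- the values of a matrix -/
def Vs {k m n : ℕ} (A : Matrix (Fin m) (Fin n) (FreeGroup (Fin k) →₀ ℤ)) : Set ℝ :=
  {r | ∃ (E : Type) (_ : Group E), TS E ∧ ∃ π : FreeGroup (Fin k) →* E, Function.Surjective π ∧
    W656.VA.kerDim (cpl (push π A)) = r}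

/-- If one value is not an integer, then every number is a value of an integer matrix over the free
group with two generators pushed to a torsion-free sofic quotient. -/
theorem all_two (h : ¬ ∀ (G : Type) [Group G], TS G → AmenableAllOrNothing.Atiyah ⊤ G)
    (r : ℝ) (hr : 0 ≤ r) :
      ∃ (m n : ℕ) (A : Matrix (Fin m) (Fin n) (FreeGroup (Fin 2) →₀ ℤ)), r ∈ Vs A := by
  classical
  obtain ⟨H, _, hH, hv⟩ := AmenableAllOrNothing.all_values unionClass freeClosed h r hr
  obtain ⟨H0, _, hH0, hfg, hv0⟩ := AmenableAllOrNothing.fg_value unionClass hH hv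
  obtain ⟨E, _, hE, ⟨π, hπ⟩, ψ, hψ⟩ := two_gen (AmenableAllOrNothing.cl unionClass) hH0 hfg
  obtain ⟨m, n, B, hB, hBr⟩ := W656.VA.exists_kerDim (W656.VA.val_incl ψ hψ hv0)
  have hB' : ∀ i j g, ∃ z : ℤ, (z : ℂ) = B i j g := by
    intro i j g
    obtain ⟨z, hz⟩ := (AmenableAllOrNothing.mem_ZZ _).1 (hB i j g)
    exact ⟨z, hz.symm⟩
  choose c hc using hB'
  obtain ⟨s, hs⟩ := hπ.hasRightInverse
  have hc0 : ∀ i j g, c i j g ≠ 0 → g ∈ (B i j).support := by
    intro i j g hg
    rw [Finsupp.mem_support_iff, ← hc]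
    exact_mod_cast hg
  let D : Matrix (Fin m) (Fin n) (E →₀ ℤ) := fun i j =>
    Finsupp.onFinset (B i j).support (c i j) (hc0 i j)
  let A : Matrix (Fin m) (Fin n) (FreeGroup (Fin 2) →₀ ℤ) := fun i j => (D i j).mapDomain s
  refine ⟨m, n, A, E, inferInstance, hE, π, hπ, ?_⟩
  have h1 : push π A = D := by
    funext i j
    show ((D i j).mapDomain s).mapDomain π = D i j
    rw [← Finsupp.mapDomain_comp]
    have h2 : (π ∘ s : E → E) = id := funext hs
    rw [h2, Finsupp.mapDomain_id]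
  have h2 : cpl D = B := by
    funext i j
    ext g
    show (((c i j g : ℤ)) : ℂ) = B i j g
    exact hc i j g
  rw [h1, h2, hBr]

theorem countable_of_two {E : Type} [Group E] {k : ℕ} (π : FreeGroup (Fin k) →* E)
    (hπ : Function.Surjective π) : Countable E := by
  have : Countable (FreeGroup (Fin k)) := FreeGroup.toWord_injective.countable
  exact hπ.countable

/-- kernel dimensions over torsion-free sofic groups are limits of nullities -/
theorem nul_seq {E : Type} [Group E] (hE : TS E) {k : ℕ} (π : FreeGroup (Fin k) →* E)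
    (hπ : Function.Surjective π) :
    ∃ (d : ℕ → ℕ) (τ : ∀ i, Fin k → Equiv.Perm (Fin (d i))),
      (∀ j, ∀ᶠ i in atTop, AlmostTorsionFree j (τ i)) ∧
      (∀ j, 1 ≤ j → ∀ᶠ i in atTop, ∀ w : FreeGroup (Fin k), w.norm ≤ j →
        (mv (τ i) w ≤ 1 / ((j : ℝ) + 1) ↔ π w = 1)) ∧
      ∀ (m n : ℕ) (A : Matrix (Fin m) (Fin n) (FreeGroup (Fin k) →₀ ℤ)),
        Tendsto (fun i => nullity (τ i) A) atTop (𝓝 (W656.VA.kerDim (cpl (push π A)))) := by
  have := countable_of_two π hπ
  obtain ⟨d, σ, hd, hm, hf⟩ := exists_model hE.2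
  refine ⟨d, fun i x => σ i (π (FreeGroup.of x)), ?_, ?_, ?_⟩
  · exact fun j => atf_eventually hE.1 hd hm hf π _ (words_model hm π) j
  · exact fun j hj => rel_eventually hd hm hf π _ (words_model hm π) j hj
  · exact fun m n A => nul_lim hd hm hf π _ (words_model hm π) A

theorem not_notALimit {k m n : ℕ} {A : Matrix (Fin m) (Fin n) (FreeGroup (Fin k) →₀ ℤ)} {r : ℝ}
    (h : r ∈ Vs A) : ¬ NotALimit A r := by
  rintro ⟨ε, j, hε, h3⟩
  obtain ⟨E, _, hE, π, hπ, hA⟩ := h
  obtain ⟨d, τ, h1, -, h2⟩ := nul_seq hE π hπ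
  have h4 := h2 m n A
  rw [hA] at h4
  obtain ⟨i, h5, h6⟩ := ((h1 j).and (Metric.tendsto_nhds.1 h4 ε hε)).exists
  have h7 := h3 _ _ h5
  rw [Real.dist_eq] at h6
  linarith

/-- the distance to the integers passes to the limit -/
theorem dist_lim {u : ℕ → ℝ} {v : ℝ} (hu : Tendsto u atTop (𝓝 v)) {ε : ℝ}
    (h : ∀ i, ∀ z : ℤ, ε < |u i - z|) (z : ℤ) : ε ≤ |v - z| := by
  have h1 : Tendsto (fun i => |u i - z|) atTop (𝓝 |v - z|) := (hu.sub_const _).abs
  exact ge_of_tendsto' h1 fun i => (h i z).le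

theorem near_int {k m n : ℕ} (h : ∀ (G : Type) [Group G], TS G → Atiyah ⊤ G)
    (A : Matrix (Fin m) (Fin n) (FreeGroup (Fin k) →₀ ℤ)) (ε : ℝ) (hε : 0 < ε) :
    ∃ j : ℕ, ∀ (N : ℕ) (σ : Fin k → Equiv.Perm (Fin N)), AlmostTorsionFree j σ →
      ∃ z : ℤ, |nullity σ A - z| ≤ ε := by
  by_contra hcon
  push Not at hcon
  choose d τ hτ hz using hcon
  obtain ⟨φ, bl, hφ, hb⟩ := exists_sub (d := d) τ
  obtain ⟨R, _, -, htf, hs, hl⟩ := limit_of (fun i => τ (φ i)) φ hφ.tendsto_atTop
    (fun i => hτ (φ i)) bl hb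
  obtain ⟨z, hz'⟩ := h _ ⟨htf, hs⟩ m n (cpl (push (QuotientGroup.mk' R) A))
    fun _ _ _ => Subring.mem_top _
  have h1 := hl m n A
  have h2 := dist_lim h1 (fun i z => hz (φ i) z) z
  have h3 : W656.VA.kerDim (cpl (push (QuotientGroup.mk' R) A)) = z := hz'
  rw [h3, sub_self, abs_zero] at h2
  linarith

/-- the set of the values is closed -/
theorem isClosed_Vs {k m n : ℕ} (A : Matrix (Fin m) (Fin n) (FreeGroup (Fin k) →₀ ℤ)) :
    IsClosed (Vs A) := by
  rw [← isSeqClosed_iff_isClosed]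
  intro u r hu hur
  have key : ∀ j : ℕ, ∃ (N : ℕ) (σ : Fin k → Equiv.Perm (Fin N)), AlmostTorsionFree j σ ∧
      |nullity σ A - u j| < 1 / ((j : ℝ) + 1) := by
    intro j
    obtain ⟨E, _, hE, π, hπ, hA⟩ := hu j
    obtain ⟨d, τ, h1, -, h2⟩ := nul_seq hE π hπ
    have h4 := h2 m n A
    rw [hA] at h4
    obtain ⟨i, h5, h6⟩ := ((h1 j).and
      (Metric.tendsto_nhds.1 h4 (1 / ((j : ℝ) + 1)) (by positivity))).exists
    exact ⟨_, _, h5, h6⟩
  choose d τ hτ hz using key
  obtain ⟨φ, bl, hφ, hb⟩ := exists_sub (d := d) τ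
  obtain ⟨R, _, -, htf, hs, hl⟩ := limit_of (fun i => τ (φ i)) φ hφ.tendsto_atTop
    (fun i => hτ (φ i)) bl hb
  have h1 := hl m n A
  have h2 : Tendsto (fun i => nullity (τ (φ i)) A - u (φ i)) atTop (𝓝 0) := by
    refine squeeze_zero_norm (fun i => (hz (φ i)).le) ?_
    exact tendsto_one_div_add_atTop_nhds_zero_nat.comp hφ.tendsto_atTop
  have h3 : Tendsto (fun i => u (φ i)) atTop (𝓝 r) := hur.comp hφ.tendsto_atTop
  have h4 := h2.add h3
  simp only [sub_add_cancel, zero_add] at h4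
  exact ⟨_, inferInstance, ⟨htf, hs⟩, QuotientGroup.mk' R, QuotientGroup.mk'_surjective R,
    tendsto_nhds_unique h1 h4⟩

/-- the matrices -/
abbrev Mx : Type := Σ p : ℕ × ℕ, Matrix (Fin p.1) (Fin p.2) (FreeGroup (Fin 2) →₀ ℤ)

theorem countable_Mx : Countable Mx := by
  have h1 : Countable (FreeGroup (Fin 2)) := FreeGroup.toWord_injective.countable
  have h2 : ∀ p : ℕ × ℕ, Countable (Matrix (Fin p.1) (Fin p.2) (FreeGroup (Fin 2) →₀ ℤ)) := by
    intro p
    unfold Matrix
    infer_instance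
  infer_instance

/-- the values of one matrix contain an interval -/
theorem exists_interval
    (h : ∀ r : ℝ, 0 ≤ r → ∃ (m n : ℕ) (A : Matrix (Fin m) (Fin n) (FreeGroup (Fin 2) →₀ ℤ)),
      r ∈ Vs A) :
    ∃ (m n : ℕ) (A : Matrix (Fin m) (Fin n) (FreeGroup (Fin 2) →₀ ℤ)) (a b : ℝ), a < b ∧
      Set.Icc a b ⊆ Vs A := by
  have := countable_Mx
  have h1 : ∀ A : Mx, IsClosed {x : ℝ | |x| ∈ Vs A.2} := fun A =>
    (isClosed_Vs A.2).preimage continuous_abs
  have h2 : ⋃ A : Mx, {x : ℝ | |x| ∈ Vs A.2} = Set.univ := by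
    ext x
    simp only [Set.mem_iUnion, Set.mem_univ, iff_true]
    obtain ⟨m, n, A, hA⟩ := h |x| (abs_nonneg x)
    exact ⟨⟨(m, n), A⟩, hA⟩
  obtain ⟨A, c, hc⟩ := nonempty_interior_of_iUnion_of_closed h1 h2
  rw [mem_interior_iff_mem_nhds, Metric.mem_nhds_iff] at hc
  obtain ⟨δ, hδ, hc⟩ := hc
  refine ⟨_, _, A.2, |c|, |c| + δ / 2, by linarith, fun x hx => ?_⟩
  obtain ⟨hx1, hx2⟩ := hx
  have hx0 : 0 ≤ x := (abs_nonneg c).trans hx1
  rcases le_or_gt 0 c with h0 | h0
  · rw [abs_of_nonneg h0] at hx1 hx2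
    have h3 : x ∈ Metric.ball c δ := by
      rw [Metric.mem_ball, Real.dist_eq, abs_of_nonneg (by linarith)]
      linarith
    have h4 : |x| ∈ Vs A.2 := hc h3
    rwa [abs_of_nonneg hx0] at h4
  · rw [abs_of_neg h0] at hx1 hx2
    have h3 : -x ∈ Metric.ball c δ := by
      rw [Metric.mem_ball, Real.dist_eq, abs_of_nonpos (by linarith)]
      linarith
    have h4 : |-x| ∈ Vs A.2 := hc h3
    rwa [abs_neg, abs_of_nonneg hx0] at h4

/-- the values are determined by finitely many relations -/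
theorem determined {k m n : ℕ} (h : ∀ (G : Type) [Group G], TS G → Atiyah ⊤ G)
    (A : Matrix (Fin m) (Fin n) (FreeGroup (Fin k) →₀ ℤ)) :
    ∃ j : ℕ, ∀ (G H : Type) [Group G] [Group H] (π : FreeGroup (Fin k) →* G)
      (ρ : FreeGroup (Fin k) →* H), Function.Surjective π → Function.Surjective ρ → TS G → TS H →
      (∀ w : FreeGroup (Fin k), w.norm ≤ j → (π w = 1 ↔ ρ w = 1)) →
      W656.VA.kerDim (cpl (push π A)) = W656.VA.kerDim (cpl (push ρ A)) := by
  by_contra hcon
  push Not at hcon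
  have key : ∀ j : ℕ, ∃ (N : ℕ) (σ : Fin k → Equiv.Perm (Fin N)) (N' : ℕ)
      (σ' : Fin k → Equiv.Perm (Fin N')), AlmostTorsionFree (j + 1) σ ∧
      AlmostTorsionFree (j + 1) σ' ∧ (∀ w : FreeGroup (Fin k), w.norm ≤ j + 1 →
        (mv σ w ≤ 1 / (((j + 1 : ℕ) : ℝ) + 1) ↔ mv σ' w ≤ 1 / (((j + 1 : ℕ) : ℝ) + 1))) ∧
      1 / 2 ≤ |nullity σ A - nullity σ' A| := by
    intro j
    obtain ⟨G, H, _, _, π, ρ, hπ, hρ, hG, hH, hw, hne⟩ := hcon (j + 1)
    obtain ⟨d, τ, h1, h2, h3⟩ := nul_seq hG π hπ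
    obtain ⟨d', τ', h1', h2', h3'⟩ := nul_seq hH ρ hρ
    obtain ⟨z, hz⟩ := h G hG m n (cpl (push π A)) fun _ _ _ => Subring.mem_top _
    obtain ⟨z', hz'⟩ := h H hH m n (cpl (push ρ A)) fun _ _ _ => Subring.mem_top _
    have e : W656.VA.kerDim (cpl (push π A)) = z := hz
    have e' : W656.VA.kerDim (cpl (push ρ A)) = z' := hz'
    have h4 := h3 m n A
    have h4' := h3' m n A
    rw [e] at h4 hne
    rw [e'] at h4' hne
    obtain ⟨i, h5, h6, h7⟩ := ((h1 (j + 1)).and ((h2 (j + 1) (by omega)).and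
      (Metric.tendsto_nhds.1 h4 (1 / 4) (by norm_num)))).exists
    obtain ⟨i', h5', h6', h7'⟩ := ((h1' (j + 1)).and ((h2' (j + 1) (by omega)).and
      (Metric.tendsto_nhds.1 h4' (1 / 4) (by norm_num)))).exists
    refine ⟨_, _, _, _, h5, h5', fun w hw' => ?_, ?_⟩
    · rw [h6 w hw', h6' w hw', hw w hw']
    · have h8 : (1 : ℝ) ≤ |(z : ℝ) - z'| := by
        have h9 : z ≠ z' := fun h0 => hne (by rw [h0])
        have h10 : 1 ≤ |z - z'| := Int.one_le_abs (sub_ne_zero.2 h9)
        exact_mod_cast h10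
      rw [Real.dist_eq] at h7 h7'
      have h11 := abs_sub_le (z : ℝ) (nullity (τ i) A) z'
      have h12 := abs_sub_le (nullity (τ i) A) (nullity (τ' i') A) z'
      rw [abs_sub_comm (z : ℝ) (nullity (τ i) A)] at h11
      linarith
  choose d τ d' τ' hτ hτ' hw hz using key
  obtain ⟨φ, bl, hφ, hb⟩ := exists_sub (d := fun i => d (i - 1)) (fun i => τ (i - 1))
  have hφ1 : Tendsto (fun i => φ (i + 1)) atTop atTop :=
    hφ.tendsto_atTop.comp (tendsto_add_atTop_nat 1)
  have hpos : ∀ i, φ (i + 1) - 1 + 1 = φ (i + 1) := by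
    intro i
    have h1 : i + 1 ≤ φ (i + 1) := hφ.id_le (i + 1)
    omega
  have hb1 : ∀ w, ∀ᶠ i in atTop, decide (mv (τ (φ (i + 1) - 1)) w ≤
      1 / ((φ (i + 1) : ℝ) + 1)) = bl w := fun w =>
    (tendsto_add_atTop_nat 1).eventually (hb w)
  have hb2 : ∀ w, ∀ᶠ i in atTop, decide (mv (τ' (φ (i + 1) - 1)) w ≤
      1 / ((φ (i + 1) : ℝ) + 1)) = bl w := by
    intro w
    filter_upwards [hb1 w, hφ1.eventually_ge_atTop w.norm] with i h1 h2
    rw [← h1]
    have h3 := hw (φ (i + 1) - 1) w (by rw [hpos]; exact h2)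
    rw [hpos] at h3
    exact (decide_eq_decide.2 h3).symm
  obtain ⟨R, _, hR, htf, hs, hl⟩ := limit_of (fun i => τ (φ (i + 1) - 1)) (fun i => φ (i + 1))
    hφ1 (fun i => by have := hτ (φ (i + 1) - 1); rw [hpos] at this; exact this) bl hb1
  obtain ⟨R', _, hR', htf', hs', hl'⟩ := limit_of (fun i => τ' (φ (i + 1) - 1))
    (fun i => φ (i + 1)) hφ1
    (fun i => by have := hτ' (φ (i + 1) - 1); rw [hpos] at this; exact this) bl hb2
  have hRR : R = R' := by
    ext w
    rw [hR, hR']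
  subst hRR
  have h1 := (hl m n A).sub (hl' m n A)
  rw [sub_self] at h1
  have h2 := ge_of_tendsto' h1.abs fun i => hz (φ (i + 1) - 1)
  rw [abs_zero] at h2
  linarith

/-- finitely many values -/
theorem finite_Vs {m n : ℕ} (A : Matrix (Fin m) (Fin n) (FreeGroup (Fin 2) →₀ ℤ)) (j : ℕ)
    (h : ∀ (G H : Type) [Group G] [Group H] (π : FreeGroup (Fin 2) →* G)
      (ρ : FreeGroup (Fin 2) →* H), Function.Surjective π → Function.Surjective ρ → TS G → TS H →
      (∀ w : FreeGroup (Fin 2), w.norm ≤ j → (π w = 1 ↔ ρ w = 1)) →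
      W656.VA.kerDim (cpl (push π A)) = W656.VA.kerDim (cpl (push ρ A))) : (Vs A).Finite := by
  have hfin := finite_ball 2 j
  have h1 : {s : Set (FreeGroup (Fin 2)) | s ⊆ {w | w.norm ≤ j}}.Finite := hfin.finite_subsets
  have key : ∀ r ∈ Vs A, ∃ s : Set (FreeGroup (Fin 2)), s ⊆ {w | w.norm ≤ j} ∧
      ∃ (E : Type) (_ : Group E), TS E ∧ ∃ π : FreeGroup (Fin 2) →* E, Function.Surjective π ∧
        W656.VA.kerDim (cpl (push π A)) = r ∧ ∀ w, w.norm ≤ j → (w ∈ s ↔ π w = 1) := by
    rintro r ⟨E, iE, hE, π, hπ, hA⟩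
    exact ⟨{w | w.norm ≤ j ∧ π w = 1}, fun w hw => hw.1, E, iE, hE, π, hπ, hA,
      fun w hw => ⟨fun h => h.2, fun h => ⟨hw, h⟩⟩⟩
  choose! f hf hf' using key
  refine Set.Finite.of_injOn (f := f) (t := {s | s ⊆ {w | w.norm ≤ j}}) hf ?_ h1
  intro r hr r' hr' hrr
  obtain ⟨E, _, hE, π, hπ, hA, hw⟩ := hf' r hr
  obtain ⟨E', _, hE', π', hπ', hA', hw'⟩ := hf' r' hr'
  rw [← hA, ← hA']
  refine h _ _ _ _ hπ hπ' hE hE' fun w h2 => ?_
  rw [← hw w h2, ← hw' w h2, hrr]

theorem far_int {r : ℝ} (hr : ∀ z : ℤ, r ≠ z) : ∃ δ : ℝ, 0 < δ ∧ ∀ z : ℤ, δ ≤ |r - z| :=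
  ⟨|r - round r|, abs_pos.2 (sub_ne_zero.2 (hr _)), fun z => round_le r z⟩

theorem notALimit_of_near {k m n : ℕ} {A : Matrix (Fin m) (Fin n) (FreeGroup (Fin k) →₀ ℤ)}
    (h : ∀ ε : ℝ, 0 < ε → ∃ j : ℕ, ∀ (N : ℕ) (σ : Fin k → Equiv.Perm (Fin N)),
      AlmostTorsionFree j σ → ∃ z : ℤ, |nullity σ A - z| ≤ ε) {r : ℝ} (hr : ∀ z : ℤ, r ≠ z) :
    NotALimit A r := by
  obtain ⟨δ, hδ, h1⟩ := far_int hr
  obtain ⟨j, hj⟩ := h (δ / 2) (by linarith)
  refine ⟨δ / 2, j, by linarith, fun N σ hσ => ?_⟩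
  obtain ⟨z, hz⟩ := hj N σ hσ
  have h2 := h1 z
  have h3 := abs_sub_le r (nullity σ A) z
  rw [abs_sub_comm r (nullity σ A)] at h3
  linarith

/-- **The Atiyah conjecture for torsion-free sofic groups is a statement about finite
permutations.** The kernel dimension of a matrix `A` over `R[G]` is the von Neumann dimension of
the kernel of the right multiplication by `A` on `ℓ²(G)^m`. Let `R` be any subring of `ℂ`, for
example `ℤ` or `ℚ`. The following are equivalent.

1. All kernel dimensions of the matrices over `ℂ[G]` are integers, for all torsion-free sofic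
groups `G` (the Atiyah conjecture over `ℂ` for torsion-free sofic groups).
2. All kernel dimensions of the matrices over `R[G]` are integers, for all torsion-free sofic
groups `G`.
3. Some real number `r ≥ 0` is not the kernel dimension of a matrix over `R[G]`, for any
torsion-free sofic group `G` generated by two elements.
4. For every integral matrix `A` over the free group of rank two there is a `j` such that the kernel
dimension of the image of `A` over a torsion-free sofic quotient of the free group depends only on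
the relations of length at most `j`.
5. For every integral matrix `A` over a free group of finite rank `k` and every `ε > 0` there is a
`j` such that for all `k` finite permutations which are almost torsion-free up to the length `j`,
the normalized nullity of `A` (a finite system of linear equations) is `ε`-close to an integer.
6. Some real number `r ≥ 0` is not a limit of normalized nullities of an integral matrix `A` over
the free group of rank two, for any `A`, along pairs of finite permutations which are more and more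
torsion-free.
7. For every `A` and every interval `[a, b]`, `a < b`, some `r` in this interval is not a limit of
normalized nullities of `A` along such pairs.

So if one torsion-free sofic group violates the Atiyah conjecture over `ℂ`, then every real number
`r ≥ 0` is such a limit for some `A`, and for some `A` these limits fill an interval. -/
theorem result (R : Subring ℂ) : List.TFAE [
    ∀ (G : Type) [Group G], TorsionFree G → Sofic G → Atiyah ⊤ G,
    ∀ (G : Type) [Group G], TorsionFree G → Sofic G → Atiyah R G,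
    ∃ r : ℝ, 0 ≤ r ∧ ∀ (G : Type) [Group G], TorsionFree G → Sofic G → TwoGenerated G →
      Omits R G r,
    ∀ (m n : ℕ) (A : Matrix (Fin m) (Fin n) (FreeGroup (Fin 2) →₀ ℤ)), ∃ j : ℕ,
      ∀ (G H : Type) [Group G] [Group H] (π : FreeGroup (Fin 2) →* G)
        (ρ : FreeGroup (Fin 2) →* H), Function.Surjective π → Function.Surjective ρ →
        TorsionFree G → Sofic G → TorsionFree H → Sofic H →
        (∀ w : FreeGroup (Fin 2), w.norm ≤ j → (π w = 1 ↔ ρ w = 1)) →
        kerDim (image π A) = kerDim (image ρ A),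
    ∀ (k m n : ℕ) (A : Matrix (Fin m) (Fin n) (FreeGroup (Fin k) →₀ ℤ)) (ε : ℝ), 0 < ε →
      ∃ j : ℕ, ∀ (N : ℕ) (σ : Fin k → Equiv.Perm (Fin N)), AlmostTorsionFree j σ →
        ∃ z : ℤ, |nullity σ A - z| ≤ ε,
    ∃ r : ℝ, 0 ≤ r ∧ ∀ (m n : ℕ) (A : Matrix (Fin m) (Fin n) (FreeGroup (Fin 2) →₀ ℤ)),
      NotALimit A r,
    ∀ (m n : ℕ) (A : Matrix (Fin m) (Fin n) (FreeGroup (Fin 2) →₀ ℤ)) (a b : ℝ), a < b →
      ∃ r : ℝ, a ≤ r ∧ r ≤ b ∧ NotALimit A r] := by
  have hdef : ∀ R' : Subring ℂ, (∀ (G : Type) [Group G], TorsionFree G → Sofic G → Atiyah R' G) ↔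
      ∀ (G : Type) [Group G], TS G → AmenableAllOrNothing.Atiyah R' G := by
    intro R'
    constructor
    · intro h G _ hG
      exact h G hG.1 (isSofic_iff.2 hG.2)
    · intro h G _ h1 h2
      exact h G ⟨h1, isSofic_iff.1 h2⟩
  tfae_have 1 → 2 := by
    intro h G _ h1 h2 m n A _
    exact h G h1 h2 m n A fun _ _ _ => Subring.mem_top _
  tfae_have 2 → 3 := by
    intro h
    exact ⟨1 / 2, by norm_num, fun G _ h1 h2 _ => AmenableAllOrNothing.omits_half (h G h1 h2)⟩
  tfae_have 3 → 1 := by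
    rintro ⟨r, hr, h⟩
    rw [hdef]
    by_contra hno
    obtain ⟨m, n, A, E, _, hE, π, hπ, hA⟩ := all_two hno r hr
    refine h E hE.1 (isSofic_iff.2 hE.2) ?_ m n (cpl (push π A)) ?_ hA
    · refine ⟨π (FreeGroup.of 0), π (FreeGroup.of 1), ?_⟩
      rw [eq_top_iff]
      rintro x -
      obtain ⟨w, rfl⟩ := hπ x
      induction w using FreeGroup.induction_on with
      | C1 => rw [map_one]; exact Subgroup.one_mem _
      | of x =>
        apply Subgroup.subset_closure
        fin_cases x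
        · left; rfl
        · right; rfl
      | inv_of x hx => rw [map_inv]; exact Subgroup.inv_mem _ hx
      | mul u v hu hv => rw [map_mul]; exact Subgroup.mul_mem _ hu hv
    · intro i j g
      show (((push π A i j g : ℤ)) : ℂ) ∈ R
      exact intCast_mem R _
  tfae_have 1 → 4 := by
    intro h m n A
    obtain ⟨j, hj⟩ := determined (fun G _ hG => h G hG.1 (isSofic_iff.2 hG.2)) A
    refine ⟨j, fun G H _ _ π ρ hπ hρ h1 h2 h3 h4 h5 => ?_⟩
    exact hj G H π ρ hπ hρ ⟨h1, isSofic_iff.1 h2⟩ ⟨h3, isSofic_iff.1 h4⟩ h5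
  tfae_have 4 → 1 := by
    intro h
    rw [hdef]
    by_contra hno
    have h1 := all_two hno
    have := countable_Mx
    have h2 : (⋃ A : Mx, Vs A.2).Countable := by
      refine Set.countable_iUnion fun A => ?_
      obtain ⟨j, hj⟩ := h _ _ A.2
      exact (finite_Vs A.2 j fun G H _ _ π ρ hπ hρ hG hH hw =>
        hj G H π ρ hπ hρ hG.1 (isSofic_iff.2 hG.2) hH.1 (isSofic_iff.2 hH.2) hw).countable
    have h3 : Set.Icc (0 : ℝ) 1 ⊆ ⋃ A : Mx, Vs A.2 := by
      intro r hr
      obtain ⟨m, n, A, hA⟩ := h1 r hr.1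
      exact Set.mem_iUnion.2 ⟨⟨(m, n), A⟩, hA⟩
    have h4 := h2.mono h3
    have h5 := Cardinal.mk_Icc_real (show (0 : ℝ) < 1 by norm_num)
    have h6 := Cardinal.le_aleph0_iff_set_countable.2 h4
    rw [h5] at h6
    exact absurd h6 (not_le.2 Cardinal.aleph0_lt_continuum)
  tfae_have 1 → 5 := by
    intro h k m n A ε hε
    exact near_int (fun G _ hG => h G hG.1 (isSofic_iff.2 hG.2)) A ε hε
  tfae_have 5 → 6 := by
    intro h
    refine ⟨1 / 2, by norm_num, fun m n A => ?_⟩
    exact notALimit_of_near (h 2 m n A) fun z h1 => AmenableAllOrNothing.not_int_half z h1.symm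
  tfae_have 5 → 7 := by
    intro h m n A a b hab
    obtain ⟨r, hr, h1, h2⟩ := exists_irrational_btwn hab
    exact ⟨r, h1.le, h2.le, notALimit_of_near (h 2 m n A) fun z => hr.ne_int z⟩
  tfae_have 6 → 1 := by
    rintro ⟨r, hr, h⟩
    rw [hdef]
    by_contra hno
    obtain ⟨m, n, A, hA⟩ := all_two hno r hr
    exact not_notALimit hA (h m n A)
  tfae_have 7 → 1 := by
    intro h
    rw [hdef]
    by_contra hno
    obtain ⟨m, n, A, a, b, hab, hA⟩ := exists_interval (all_two hno)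
    obtain ⟨r, h1, h2, h3⟩ := h m n A a b hab
    exact not_notALimit (hA ⟨h1, h2⟩) h3
  tfae_finish

end Pool.Agent.Results.MP_95030e_al.FinitePermutations
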