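import Pool.Agent.H13.GN.Rat
import Pool.Agent.H13.GN.Usc

set_option autoImplicit false
set_option linter.unusedSectionVars false

open Filter Topology

noncomputable section

namespace Pool.Agent.Results.MP_95030e_al.GenericQuotients

/-- The kernel of right multiplication by the matrix `A` on `ℓ²(G)^m`. -/
def kernel {G : Type} [Group G] {m n : ℕ} (A : Matrix (Fin m) (Fin n) (G →₀ ℂ)) :
    Set (lp (fun _ : Fin m × G => ℂ) 2) :=
  {x | ∀ (j : Fin n) (g : G),
    ∑ i : Fin m, (A i j).sum (fun h c => x (i, g * h⁻¹) * c) = 0}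

open Classical in
/-- The von Neumann dimension of this kernel: the sum over `i` of one minus the squared distance
from the basis vector at `(i, 1)` to the kernel, that is, the trace of the projection onto the
kernel. -/
def kerDim {G : Type} [Group G] {m n : ℕ} (A : Matrix (Fin m) (Fin n) (G →₀ ℂ)) : ℝ :=
  ∑ i : Fin m, (1 - (Metric.infDist
    (lp.single 2 (i, (1 : G)) (1 : ℂ) : lp (fun _ : Fin m × G => ℂ) 2) (kernel A)) ^ 2)

/-- `G` is torsion-free. -/
def TorsionFree (G : Type) [Group G] : Prop := ∀ g : G, ∀ n : ℕ, 0 < n → g ^ n = 1 → g = 1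

/-- A rational matrix as a complex matrix. -/
def complex {G : Type} {m n : ℕ} (A : Matrix (Fin m) (Fin n) (G →₀ ℚ)) :
    Matrix (Fin m) (Fin n) (G →₀ ℂ) :=
  fun i j => (A i j).mapRange (fun q : ℚ => (q : ℂ)) Rat.cast_zero

/-- All kernels of rational matrices over `G` have integral von Neumann dimension. -/
def Atiyah (G : Type) [Group G] : Prop :=
  ∀ (m n : ℕ) (A : Matrix (Fin m) (Fin n) (G →₀ ℚ)), ∃ z : ℤ, kerDim (complex A) = z

/-- The von Neumann dimensions of the kernels of the rational matrices over `G`. -/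
def values (G : Type) [Group G] : Set ℝ :=
  {r | ∃ (m n : ℕ) (A : Matrix (Fin m) (Fin n) (G →₀ ℚ)), kerDim (complex A) = r}

/-- A quotient of the group `Γ`, given by a normal subgroup, the set of its relations. -/
structure Quot (Γ : Type) [Group Γ] where
  /-- the relations -/
  rel : Subgroup Γ
  /-- they form a normal subgroup -/
  normal : rel.Normal

/-- The quotient group. -/
def Quot.grp {Γ : Type} [Group Γ] (P : Quot Γ) : Type := Γ ⧸ P.rel

instance {Γ : Type} [Group Γ] (P : Quot Γ) : Group P.grp :=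
  haveI := P.normal
  inferInstanceAs (Group (Γ ⧸ P.rel))

open Classical in
/-- The topology on the set of the quotients of `Γ`: two quotients are close if they satisfy the
same relations from a large finite set. It is induced by the topology of pointwise convergence on
the characteristic functions of the normal subgroups. -/
instance {Γ : Type} [Group Γ] : TopologicalSpace (Quot Γ) :=
  TopologicalSpace.induced (fun P g => decide (g ∈ P.rel) : Quot Γ → Γ → Bool) inferInstance

/-- The von Neumann dimension of the kernel of the image of the integral matrix `A` over the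
quotient `P`. -/
def dim {Γ : Type} [Group Γ] {m n : ℕ} (A : Matrix (Fin m) (Fin n) (Γ →₀ ℤ)) (P : Quot Γ) : ℝ :=
  kerDim (G := P.grp) fun i j =>
    ((A i j).mapDomain (fun g => (QuotientGroup.mk g : Γ ⧸ P.rel))).mapRange
      (fun z : ℤ => (z : ℂ)) Int.cast_zero

open Pool.Agent.H13.SF (cpl push)
open Pool.Agent.H13.GN

variable {Γ : Type} [Group Γ]

/-- the projection -/
def pr (P : Quot Γ) : Γ →* P.grp :=
  haveI := P.normal
  QuotientGroup.mk' P.rel

theorem pr_surj (P : Quot Γ) : Function.Surjective (pr P) := QuotientGroup.mk_surjective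

theorem pr_eq_one (P : Quot Γ) (g : Γ) : pr P g = 1 ↔ g ∈ P.rel := by
  have := P.normal
  exact QuotientGroup.eq_one_iff g

theorem dim_eq {m n : ℕ} (A : Matrix (Fin m) (Fin n) (Γ →₀ ℤ)) (P : Quot Γ) :
    dim A P = Pool.Agent.W656.VA.kerDim (cpl (push (pr P) A)) := rfl

/-! ### the topology -/

open Classical in
/-- the characteristic function -/
def chr (P : Quot Γ) : Γ → Bool := fun g => decide (g ∈ P.rel)

theorem isInducing_chr : IsInducing (chr : Quot Γ → Γ → Bool) := ⟨rfl⟩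

theorem chr_inj : Function.Injective (chr : Quot Γ → Γ → Bool) := by
  rintro ⟨N, hN⟩ ⟨N', hN'⟩ h
  have : N = N' := by
    ext g
    have h1 := congrFun h g
    unfold chr at h1
    simpa using h1
  subst this
  rfl

theorem isOpen_nb (P₀ : Quot Γ) (S : Finset Γ) :
    IsOpen {P : Quot Γ | ∀ s ∈ S, s ∈ P.rel ↔ s ∈ P₀.rel} := by
  have e : {P : Quot Γ | ∀ s ∈ S, s ∈ P.rel ↔ s ∈ P₀.rel} =
      ⋂ s ∈ S, (fun P => chr P s) ⁻¹' {chr P₀ s} := by
    ext P
    simp [chr]
  rw [e]
  refine isOpen_biInter_finset fun s _ => ?_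
  exact (isOpen_discrete _).preimage ((continuous_apply s).comp isInducing_chr.continuous)

theorem exists_nb {U : Set (Quot Γ)} (hU : IsOpen U) {P₀ : Quot Γ} (h : P₀ ∈ U) :
    ∃ S : Finset Γ, ∀ P : Quot Γ, (∀ s ∈ S, s ∈ P.rel ↔ s ∈ P₀.rel) → P ∈ U := by
  obtain ⟨V, hV, rfl⟩ := isInducing_chr.isOpen_iff.1 hU
  obtain ⟨I, u, hu, hI⟩ := isOpen_pi_iff.1 hV (chr P₀) h
  refine ⟨I, fun P hP => hI ?_⟩
  intro s hs
  have h1 : chr P s = chr P₀ s := decide_eq_decide.2 (hP s (Finset.mem_coe.1 hs))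
  rw [h1]
  exact (hu s hs).2

theorem clopen_mem (g : Γ) : IsClopen {x : Γ → Bool | x g = true} :=
  (isClopen_discrete {true}).preimage (continuous_apply g)

theorem clopen_rel (g : Γ) : IsClopen {P : Quot Γ | g ∈ P.rel} := by
  have e : {P : Quot Γ | g ∈ P.rel} = chr ⁻¹' {x : Γ → Bool | x g = true} := by
    ext P
    simp [chr]
  rw [e]
  exact (clopen_mem g).preimage isInducing_chr.continuous

theorem isClosed_range : IsClosed (Set.range (chr : Quot Γ → Γ → Bool)) := by
  have e : Set.range (chr : Quot Γ → Γ → Bool) =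
      {x | x 1 = true} ∩ ({x | ∀ a b, x a = true → x b = true → x (a * b) = true} ∩
        ({x | ∀ a, x a = true → x a⁻¹ = true} ∩
          {x | ∀ a b, x a = true → x (b * a * b⁻¹) = true})) := by
    ext x
    constructor
    · rintro ⟨P, rfl⟩
      refine ⟨?_, ?_, ?_, ?_⟩
      · simp [chr, P.rel.one_mem]
      · intro a b ha hb
        simp only [chr, decide_eq_true_eq] at *
        exact P.rel.mul_mem ha hb
      · intro a ha
        simp only [chr, decide_eq_true_eq] at *
        exact P.rel.inv_mem ha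
      · intro a b ha
        simp only [chr, decide_eq_true_eq] at *
        exact P.normal.conj_mem a ha b
    · rintro ⟨h1, h2, h3, h4⟩
      refine ⟨⟨{ carrier := {g | x g = true}
                 one_mem' := h1
                 mul_mem' := fun {a b} ha hb => h2 a b ha hb
                 inv_mem' := fun {a} ha => h3 a ha }, ⟨fun a ha b => h4 a b ha⟩⟩, ?_⟩
      funext g
      unfold chr
      have : (g ∈ ({ carrier := {g | x g = true}
                     one_mem' := h1
                     mul_mem' := fun {a b} ha hb => h2 a b ha hb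
                     inv_mem' := fun {a} ha => h3 a ha } : Subgroup Γ)) ↔ x g = true := Iff.rfl
      simp only [this]
      cases x g <;> simp
  rw [e]
  refine (clopen_mem 1).isClosed.inter (IsClosed.inter ?_ (IsClosed.inter ?_ ?_))
  · simp only [Set.ofPred_forall]
    exact isClosed_iInter fun a => isClosed_iInter fun b => isClosed_imp (clopen_mem a).isOpen
      (isClosed_imp (clopen_mem b).isOpen (clopen_mem _).isClosed)
  · simp only [Set.ofPred_forall]
    exact isClosed_iInter fun a => isClosed_imp (clopen_mem a).isOpen (clopen_mem _).isClosed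
  · simp only [Set.ofPred_forall]
    exact isClosed_iInter fun a => isClosed_iInter fun b => isClosed_imp (clopen_mem a).isOpen
      (clopen_mem _).isClosed

theorem isClosedEmbedding_chr : IsClosedEmbedding (chr : Quot Γ → Γ → Bool) :=
  ⟨⟨isInducing_chr, chr_inj⟩, isClosed_range⟩

instance : CompactSpace (Quot Γ) := isClosedEmbedding_chr.compactSpace

instance : T2Space (Quot Γ) := isClosedEmbedding_chr.isEmbedding.t2Space

theorem baire {X : Set (Quot Γ)} (hX : IsClosed X) : BaireSpace X := by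
  have : CompactSpace X := isCompact_iff_compactSpace.1 hX.isCompact
  infer_instance

/-! ### the dimensions -/

theorem dim_lt {m n : ℕ} (A : Matrix (Fin m) (Fin n) (Γ →₀ ℤ)) (r : ℝ) :
    IsOpen {P : Quot Γ | dim A P < r} := by
  rw [isOpen_iff_mem_nhds]
  intro P hP
  obtain ⟨S, hS⟩ := Pool.Agent.H13.GN.usc (pr P) A r (by rw [← dim_eq]; exact hP)
  refine mem_of_superset ((isOpen_nb P S).mem_nhds fun s _ => Iff.rfl) ?_
  intro P' hP'
  show dim A P' < r
  rw [dim_eq]
  refine hS (pr P') fun s hs => ?_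
  rw [pr_eq_one, pr_eq_one]
  exact (hP' s hs).symm

theorem zero_mem_kernel {G : Type} [Group G] {m n : ℕ} (A : Matrix (Fin m) (Fin n) (G →₀ ℂ)) :
    (0 : lp (fun _ : Fin m × G => ℂ) 2) ∈ kernel A := by
  intro j g
  simp

theorem kerDim_mem {G : Type} [Group G] {m n : ℕ} (A : Matrix (Fin m) (Fin n) (G →₀ ℂ)) :
    0 ≤ kerDim A ∧ kerDim A ≤ m := by
  classical
  have h1 : ∀ i : Fin m, 0 ≤ 1 - (Metric.infDist
      (lp.single 2 (i, (1 : G)) (1 : ℂ) : lp (fun _ : Fin m × G => ℂ) 2) (kernel A)) ^ 2 := by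
    intro i
    have h2 := Metric.infDist_le_dist_of_mem (x := (lp.single 2 (i, (1 : G)) (1 : ℂ) :
      lp (fun _ : Fin m × G => ℂ) 2)) (zero_mem_kernel A)
    rw [dist_zero_right, lp.norm_single (by norm_num), norm_one] at h2
    have h3 := Metric.infDist_nonneg (x := (lp.single 2 (i, (1 : G)) (1 : ℂ) :
      lp (fun _ : Fin m × G => ℂ) 2)) (s := kernel A)
    nlinarith
  unfold kerDim
  constructor
  · convert Finset.sum_nonneg fun i _ => h1 i
  · calc _ ≤ ∑ i : Fin m, (1 : ℝ) := Finset.sum_le_sum fun i _ => by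
          have := sq_nonneg (Metric.infDist
            (lp.single 2 (i, (1 : G)) (1 : ℂ) : lp (fun _ : Fin m × G => ℂ) 2) (kernel A))
          linarith
      _ = m := by simp

theorem dim_mem {m n : ℕ} (A : Matrix (Fin m) (Fin n) (Γ →₀ ℤ)) (P : Quot Γ) :
    0 ≤ dim A P ∧ dim A P ≤ m := kerDim_mem _

/-- integral matrices as rational matrices -/
theorem as_rat {m n : ℕ} (A : Matrix (Fin m) (Fin n) (Γ →₀ ℤ)) (P : Quot Γ) :
    ∃ B : Matrix (Fin m) (Fin n) (P.grp →₀ ℚ), kerDim (complex B) = dim A P := by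
  refine ⟨fun i j => (push (pr P) A i j).mapRange (fun z : ℤ => (z : ℚ)) Int.cast_zero, ?_⟩
  rw [dim_eq]
  have h1 := FiniteGroups.complex_int (push (pr P) A)
  rw [← h1]
  rfl

/-- integral matrices over the quotient lift -/
theorem lift_rat {m n : ℕ} (P : Quot Γ) (A : Matrix (Fin m) (Fin n) (P.grp →₀ ℚ)) :
    ∃ A' : Matrix (Fin m) (Fin n) (Γ →₀ ℤ), dim A' P = kerDim (complex A) := by
  obtain ⟨B, hB, hBA⟩ := FiniteGroups.clear A
  have hB' : ∀ i j g, ∃ z : ℤ, (z : ℂ) = B i j g := by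
    intro i j g
    obtain ⟨z, hz⟩ := (AmenableAllOrNothing.mem_ZZ _).1 (hB i j g)
    exact ⟨z, hz.symm⟩
  choose c hc using hB'
  have hc0 : ∀ i j g, c i j g ≠ 0 → g ∈ (B i j).support := by
    intro i j g hg
    rw [Finsupp.mem_support_iff, ← hc]
    exact_mod_cast hg
  obtain ⟨s, hs⟩ := (pr_surj P).hasRightInverse
  set D : Matrix (Fin m) (Fin n) (P.grp →₀ ℤ) :=
    fun i j => Finsupp.onFinset (B i j).support (c i j) (hc0 i j) with hD
  set A' : Matrix (Fin m) (Fin n) (Γ →₀ ℤ) := fun i j => (D i j).mapDomain s with hA'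
  refine ⟨A', ?_⟩
  rw [dim_eq]
  have h1 : push (pr P) A' = D := by
    funext i j
    show ((D i j).mapDomain s).mapDomain (pr P) = D i j
    rw [← Finsupp.mapDomain_comp]
    have h2 : (pr P ∘ s : P.grp → P.grp) = id := funext hs
    rw [h2, Finsupp.mapDomain_id]
  have h2 : cpl D = B := by
    funext i j
    ext g
    show (((c i j g : ℤ)) : ℂ) = B i j g
    exact hc i j g
  rw [h1, h2]
  exact hBA.symm

theorem atiyah_iff (P : Quot Γ) : Atiyah P.grp ↔
    ∀ (m n : ℕ) (A : Matrix (Fin m) (Fin n) (Γ →₀ ℤ)), ∃ z : ℤ, dim A P = z := by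
  constructor
  · intro h m n A
    obtain ⟨B, hB⟩ := as_rat A P
    rw [← hB]
    exact h m n B
  · intro h m n A
    obtain ⟨A', hA'⟩ := lift_rat P A
    rw [← hA']
    exact h m n A'

theorem mem_values (P : Quot Γ) (r : ℝ) : r ∈ values P.grp ↔
    ∃ (m n : ℕ) (A : Matrix (Fin m) (Fin n) (Γ →₀ ℤ)), dim A P = r := by
  constructor
  · rintro ⟨m, n, A, rfl⟩
    obtain ⟨A', hA'⟩ := lift_rat P A
    exact ⟨m, n, A', hA'⟩
  · rintro ⟨m, n, A, rfl⟩
    obtain ⟨B, hB⟩ := as_rat A P
    exact ⟨m, n, B, hB⟩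

theorem values_mono {G H : Type} [Group G] [Group H] (f : G →* H) (hf : Function.Injective f) :
    values G ⊆ values H := by
  rintro r ⟨m, n, A, rfl⟩
  have h1 : Pool.Agent.W656.VA.Val AmenableAllOrNothing.ZZ G (kerDim (complex A)) :=
    FiniteGroups.val_rat A
  obtain ⟨m', n', D, hD⟩ := FiniteGroups.exists_int (Pool.Agent.W656.VA.val_incl f hf h1)
  refine ⟨m', n', fun i j => (D i j).mapRange (fun z : ℤ => (z : ℚ)) Int.cast_zero, ?_⟩
  rw [← hD]
  have h2 := FiniteGroups.complex_int D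
  rw [← h2]
  rfl

/-! ### Baire category -/

/-- For an upper semicontinuous function the points of continuity are comeagre. -/
theorem cont_of_usc {Y : Type} [TopologicalSpace Y] (f : Y → ℝ)
    (hf : ∀ r : ℝ, IsOpen {y | f y < r}) : ∀ᶠ y in residual Y, ContinuousAt f y := by
  have h1 : ∀ q : ℚ, ∀ᶠ y in residual Y, y ∉ frontier {y | (q : ℝ) ≤ f y} := by
    intro q
    have hc : IsClosed {y | (q : ℝ) ≤ f y} := by
      rw [← isOpen_compl_iff]
      have e : {y | (q : ℝ) ≤ f y}ᶜ = {y | f y < q} := by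
        ext y
        simp
      rw [e]
      exact hf q
    have h2 : IsOpen (frontier {y | (q : ℝ) ≤ f y})ᶜ := isClosed_frontier.isOpen_compl
    have h3 : Dense (frontier {y | (q : ℝ) ≤ f y})ᶜ := by
      rw [← interior_eq_empty_iff_dense_compl]
      exact interior_frontier hc
    exact residual_of_dense_open h2 h3
  filter_upwards [eventually_countable_forall.2 h1] with y hy
  refine tendsto_order.2 ⟨fun a ha => ?_, fun a ha => (hf a).mem_nhds ha⟩
  obtain ⟨q, hq1, hq2⟩ := exists_rat_btwn ha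
  have h2 : y ∈ interior {y | (q : ℝ) ≤ f y} := by
    by_contra hcon
    exact hy q ⟨subset_closure (show (q : ℝ) ≤ f y from hq2.le), hcon⟩
  filter_upwards [mem_interior_iff_mem_nhds.1 h2] with x hx
  exact lt_of_lt_of_le hq1 hx

/-- matrices -/
def Mx (Γ : Type) : Type := Σ (m : ℕ) (n : ℕ), (Fin m → Fin n → (Γ →₀ ℤ))

instance [Countable Γ] : Countable (Mx Γ) :=
  inferInstanceAs (Countable (Σ (m : ℕ) (n : ℕ), (Fin m → Fin n → (Γ →₀ ℤ))))

/-- the dimension -/
def dm (a : Mx Γ) (P : Quot Γ) : ℝ := dim (m := a.1) (n := a.2.1) a.2.2 P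

theorem isGδ_int [Countable Γ] (a : Mx Γ) : IsGδ {P : Quot Γ | ∃ z : ℤ, dm a P = z} := by
  have : TopologicalSpace.MetrizableSpace (Quot Γ) :=
    isClosedEmbedding_chr.isEmbedding.metrizableSpace
  let _ := TopologicalSpace.metrizableSpaceMetric (Quot Γ)
  have e : {P : Quot Γ | ∃ z : ℤ, dm a P = z} = ⋃ z : Fin (a.1 + 1),
      ({P : Quot Γ | dm a P < (z : ℕ)}ᶜ ∩
        ⋂ j : ℕ, {P : Quot Γ | dm a P < (z : ℕ) + 1 / ((j : ℝ) + 1)}) := by
    ext P
    simp only [Set.mem_ofPred_eq, Set.mem_iUnion, Set.mem_inter_iff, Set.mem_compl_iff,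
      Set.mem_iInter, not_lt]
    obtain ⟨h1, h2⟩ := dim_mem (m := a.1) (n := a.2.1) a.2.2 P
    constructor
    · rintro ⟨z, hz⟩
      have hz' : dim (m := a.1) (n := a.2.1) a.2.2 P = z := hz
      rw [hz'] at h1 h2
      have h3 : 0 ≤ z := by exact_mod_cast h1
      have h4 : z ≤ a.1 := by exact_mod_cast h2
      obtain ⟨k, rfl⟩ := Int.eq_ofNat_of_zero_le h3
      refine ⟨⟨k, by omega⟩, ?_, fun j => ?_⟩
      · rw [hz]
        simp
      · rw [hz]
        have : (0 : ℝ) < 1 / ((j : ℝ) + 1) := by positivity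
        simp only [Int.cast_natCast]
        linarith
    · rintro ⟨z, h3, h4⟩
      refine ⟨((z : ℕ) : ℤ), ?_⟩
      refine le_antisymm ?_ (by simpa using h3)
      refine le_of_forall_pos_lt_add fun ε hε => ?_
      obtain ⟨j, hj⟩ := exists_nat_one_div_lt hε
      have := h4 j
      simp only [Int.cast_natCast]
      linarith
  rw [e]
  refine IsGδ.iUnion fun z => IsGδ.inter ?_ (IsGδ.iInter fun j => IsOpen.isGδ (dim_lt _ _))
  exact IsClosed.isGδ (dim_lt _ _).isClosed_compl

theorem isGδ_atiyah [Countable Γ] : IsGδ {P : Quot Γ | Atiyah P.grp} := by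
  have e : {P : Quot Γ | Atiyah P.grp} = ⋂ a : Mx Γ, {P : Quot Γ | ∃ z : ℤ, dm a P = z} := by
    ext P
    simp only [Set.mem_ofPred_eq, Set.mem_iInter]
    rw [atiyah_iff]
    constructor
    · intro h a
      exact h a.1 a.2.1 a.2.2
    · intro h m n A
      exact h ⟨m, n, A⟩
  rw [e]
  exact IsGδ.iInter fun a => isGδ_int a

theorem isClosed_tf : IsClosed {P : Quot Γ | TorsionFree P.grp} := by
  have e : {P : Quot Γ | TorsionFree P.grp} =
      {P : Quot Γ | ∀ (g : Γ) (n : ℕ), 0 < n → g ^ n ∈ P.rel → g ∈ P.rel} := by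
    ext P
    constructor
    · intro h g n hn hg
      rw [← pr_eq_one] at hg ⊢
      rw [map_pow] at hg
      exact h _ n hn hg
    · intro h x n hn hx
      obtain ⟨g, rfl⟩ := pr_surj P x
      rw [← map_pow, pr_eq_one] at hx
      rw [pr_eq_one]
      exact h g n hn hx
  rw [e]
  simp only [Set.ofPred_forall]
  exact isClosed_iInter fun g => isClosed_iInter fun n => isClosed_iInter fun _ =>
    isClosed_imp (clopen_rel _).isOpen (clopen_rel _).isClosed

/-! ### the zero-one law -/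

/-- the restriction of a quotient -/
def pull {Γ' : Type} [Group Γ'] (σ : Γ →* Γ') (P : Quot Γ') : Quot Γ :=
  ⟨P.rel.comap σ, haveI := P.normal; inferInstance⟩

/-- it embeds -/
theorem pull_emb {Γ' : Type} [Group Γ'] (σ : Γ →* Γ') (P : Quot Γ') :
    ∃ f : (pull σ P).grp →* P.grp, Function.Injective f := by
  have h1 := P.normal
  have h2 := (pull σ P).normal
  let f : (pull σ P).grp →* P.grp :=
    QuotientGroup.lift (pull σ P).rel ((pr P).comp σ) (fun g hg => (pr_eq_one P (σ g)).2 hg)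
  refine ⟨f, (injective_iff_map_eq_one f).2 fun x hx => ?_⟩
  obtain ⟨g, rfl⟩ := pr_surj (pull σ P) x
  rw [pr_eq_one]
  exact (pr_eq_one P (σ g)).1 hx

/-- the shift of the generators -/
def shift (M : ℕ) : FreeGroup ℕ →* FreeGroup ℕ := FreeGroup.lift fun i => FreeGroup.of (i + M)

theorem bound (t : FreeGroup ℕ) : ∃ M : ℕ, ∀ M' : ℕ, M ≤ M' →
    ∀ {G : Type} [Group G] (φ ψ : FreeGroup ℕ →* G),
      (∀ i < M', φ (FreeGroup.of i) = ψ (FreeGroup.of i)) → φ t = ψ t := by
  induction t using FreeGroup.induction_on with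
  | C1 => exact ⟨0, fun M' _ G _ φ ψ _ => by rw [map_one, map_one]⟩
  | of i => exact ⟨i + 1, fun M' hM G _ φ ψ h => h i (by omega)⟩
  | inv_of i ih =>
    obtain ⟨M, hM⟩ := ih
    exact ⟨M, fun M' h' G _ φ ψ h => by rw [map_inv, map_inv, hM M' h' φ ψ h]⟩
  | mul x y hx hy =>
    obtain ⟨M, hM⟩ := hx
    obtain ⟨N, hN⟩ := hy
    refine ⟨max M N, fun M' h' G _ φ ψ h => ?_⟩
    rw [map_mul, map_mul, hM M' (le_trans (le_max_left _ _) h') φ ψ h,
      hN M' (le_trans (le_max_right _ _) h') φ ψ h]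

section zo
variable (𝒞 : (G : Type) → [Group G] → Prop)
  (hsub : ∀ (G H : Type) [Group G] [Group H] (f : G →* H), Function.Injective f → 𝒞 H → 𝒞 G)
  (hprod : ∀ (G H : Type) [Group G] [Group H], 𝒞 G → 𝒞 H → 𝒞 (G × H))

include hsub hprod in
/-- an independent copy of `P₀` on new generators -/
theorem exists_copy (P P₀ : Quot (FreeGroup ℕ)) (hP : 𝒞 P.grp) (hP₀ : 𝒞 P₀.grp)
    (T : Finset (FreeGroup ℕ)) : ∃ (P' : Quot (FreeGroup ℕ)) (M : ℕ), 𝒞 P'.grp ∧
      (∀ t ∈ T, t ∈ P'.rel ↔ t ∈ P.rel) ∧ ∀ s, shift M s ∈ P'.rel ↔ s ∈ P₀.rel := by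
  classical
  choose b hb using bound
  set M : ℕ := T.sup b with hM
  let φ : FreeGroup ℕ →* P.grp × P₀.grp := FreeGroup.lift fun i =>
    if i < M then (pr P (FreeGroup.of i), 1) else (1, pr P₀ (FreeGroup.of (i - M)))
  let P' : Quot (FreeGroup ℕ) := ⟨φ.ker, inferInstance⟩
  refine ⟨P', M, ?_, ?_, ?_⟩
  · let f : P'.grp →* P.grp × P₀.grp := QuotientGroup.kerLift φ
    exact hsub _ _ f (QuotientGroup.kerLift_injective φ) (hprod _ _ hP hP₀)
  · intro t ht
    have h1 : φ t = ((pr P).prod (1 : FreeGroup ℕ →* P₀.grp)) t := by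
      refine hb t M (Finset.le_sup (f := b) ht) φ _ fun i hi => ?_
      show FreeGroup.lift _ _ = _
      rw [FreeGroup.lift_apply_of, if_pos hi]
      rfl
    rw [← pr_eq_one P]
    show t ∈ φ.ker ↔ _
    rw [MonoidHom.mem_ker, h1, MonoidHom.prod_apply, Prod.mk_eq_one]
    simp
  · intro s
    have h1 : φ.comp (shift M) = (1 : FreeGroup ℕ →* P.grp).prod (pr P₀) := by
      apply FreeGroup.ext_hom
      intro i
      have h2 : shift M (FreeGroup.of i) = FreeGroup.of (i + M) := by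
        unfold shift
        rw [FreeGroup.lift_apply_of]
      rw [MonoidHom.comp_apply, h2]
      show FreeGroup.lift _ _ = _
      rw [FreeGroup.lift_apply_of, if_neg (by omega), Nat.add_sub_cancel]
      rfl
    rw [← pr_eq_one P₀]
    show shift M s ∈ φ.ker ↔ _
    rw [MonoidHom.mem_ker, ← MonoidHom.comp_apply, h1, MonoidHom.prod_apply, Prod.mk_eq_one]
    simp

include hsub hprod in
theorem zero_one (O : Set (Quot (FreeGroup ℕ)))
    (hO : ∀ P P' : Quot (FreeGroup ℕ), (∃ f : P.grp →* P'.grp, Function.Injective f) →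
      P ∈ O → P' ∈ O)
    (P₀ : Quot (FreeGroup ℕ)) (hP₀ : 𝒞 P₀.grp) (S : Finset (FreeGroup ℕ))
    (hS : ∀ P : Quot (FreeGroup ℕ), 𝒞 P.grp → (∀ s ∈ S, s ∈ P.rel ↔ s ∈ P₀.rel) → P ∈ O) :
    ∀ᶠ P in residual {P : Quot (FreeGroup ℕ) // 𝒞 P.grp}, P.1 ∈ O := by
  have h1 : ∀ M : ℕ, IsOpen {P : {P : Quot (FreeGroup ℕ) // 𝒞 P.grp} |
      ∀ s ∈ S, shift M s ∈ P.1.rel ↔ s ∈ P₀.rel} := by
    intro M
    have e : {P : {P : Quot (FreeGroup ℕ) // 𝒞 P.grp} |
        ∀ s ∈ S, shift M s ∈ P.1.rel ↔ s ∈ P₀.rel} =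
        ⋂ s ∈ S, {P | shift M s ∈ P.1.rel ↔ s ∈ P₀.rel} := by
      ext P
      simp
    rw [e]
    refine isOpen_biInter_finset fun s _ => ?_
    by_cases hs : s ∈ P₀.rel
    · simp only [hs, iff_true]
      exact (clopen_rel (shift M s)).isOpen.preimage continuous_subtype_val
    · simp only [hs, iff_false]
      exact (clopen_rel (shift M s)).compl.isOpen.preimage continuous_subtype_val
  have h2 : IsOpen (⋃ M : ℕ, {P : {P : Quot (FreeGroup ℕ) // 𝒞 P.grp} |
      ∀ s ∈ S, shift M s ∈ P.1.rel ↔ s ∈ P₀.rel}) := isOpen_iUnion h1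
  have h3 : Dense (⋃ M : ℕ, {P : {P : Quot (FreeGroup ℕ) // 𝒞 P.grp} |
      ∀ s ∈ S, shift M s ∈ P.1.rel ↔ s ∈ P₀.rel}) := by
    rw [dense_iff_inter_open]
    rintro U hU ⟨P, hP⟩
    obtain ⟨V, hV, rfl⟩ := isOpen_induced_iff.1 hU
    obtain ⟨T, hT⟩ := exists_nb hV hP
    obtain ⟨P', M, hP', h4, h5⟩ := exists_copy 𝒞 hsub hprod P.1 P₀ P.2 hP₀ T
    exact ⟨⟨P', hP'⟩, hT P' h4, Set.mem_iUnion.2 ⟨M, fun s _ => h5 s⟩⟩
  filter_upwards [residual_of_dense_open h2 h3] with P hP
  obtain ⟨M, hM⟩ := Set.mem_iUnion.1 hP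
  obtain ⟨f, hf⟩ := pull_emb (shift M) P.1
  exact hO _ _ ⟨f, hf⟩ (hS (pull (shift M) P.1) (hsub _ _ f hf P.2) hM)

end zo

theorem cont_all [Countable Γ] (X : Set (Quot Γ)) :
    ∀ᶠ P in residual X, ∀ (m n : ℕ) (A : Matrix (Fin m) (Fin n) (Γ →₀ ℤ)),
      ContinuousAt (fun P : X => dim A P.1) P := by
  have h1 : ∀ a : Mx Γ, ∀ᶠ P in residual X, ContinuousAt (fun P : X => dm a P.1) P :=
    fun a => cont_of_usc _ fun r => (dim_lt _ r).preimage continuous_subtype_val
  filter_upwards [eventually_countable_forall.2 h1] with P hP m n A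
  exact hP ⟨m, n, A⟩

/-- **the generic set of values** -/
theorem generic_values (𝒞 : (G : Type) → [Group G] → Prop)
    (hsub : ∀ (G H : Type) [Group G] [Group H] (f : G →* H), Function.Injective f → 𝒞 H → 𝒞 G)
    (hprod : ∀ (G H : Type) [Group G] [Group H], 𝒞 G → 𝒞 H → 𝒞 (G × H)) :
    ∃ V : Set ℝ, ∀ᶠ P in residual {P : Quot (FreeGroup ℕ) // 𝒞 P.grp},
      closure (values P.1.grp) = V := by
  set I : ℚ × ℚ → Prop := fun q => ∃ P₀ : Quot (FreeGroup ℕ), 𝒞 P₀.grp ∧
    ∃ S : Finset (FreeGroup ℕ), ∀ P : Quot (FreeGroup ℕ), 𝒞 P.grp →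
      (∀ s ∈ S, s ∈ P.rel ↔ s ∈ P₀.rel) → ∃ r ∈ values P.grp, (q.1 : ℝ) < r ∧ r < q.2 with hI
  refine ⟨{r | ∀ q : ℚ × ℚ, (q.1 : ℝ) < r → r < q.2 → I q}, ?_⟩
  have h1 : ∀ q : ℚ × ℚ, ∀ᶠ P in residual {P : Quot (FreeGroup ℕ) // 𝒞 P.grp},
      I q → ∃ r ∈ values P.1.grp, (q.1 : ℝ) < r ∧ r < q.2 := by
    intro q
    by_cases hq : I q
    · obtain ⟨P₀, hP₀, S, hS⟩ := hq
      have h2 := zero_one 𝒞 hsub hprod
        {P : Quot (FreeGroup ℕ) | ∃ r ∈ values P.grp, (q.1 : ℝ) < r ∧ r < q.2}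
        (by
          rintro P P' ⟨f, hf⟩ ⟨r, hr, hr'⟩
          exact ⟨r, values_mono f hf hr, hr'⟩) P₀ hP₀ S hS
      filter_upwards [h2] with P hP _
      exact hP
    · exact Eventually.of_forall fun P h => absurd h hq
  have h2 := cont_all {P : Quot (FreeGroup ℕ) | 𝒞 P.grp}
  filter_upwards [eventually_countable_forall.2 h1, h2] with P hP1 hP2
  apply Set.Subset.antisymm
  · intro r hr q hq1 hq2
    obtain ⟨v, hv1, hv2⟩ := mem_closure_iff.1 hr (Set.Ioo (q.1 : ℝ) q.2) isOpen_Ioo ⟨hq1, hq2⟩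
    obtain ⟨m, n, A, hA⟩ := (mem_values P.1 v).1 hv2
    have hc := hP2 m n A
    have h8 : ∀ᶠ P' in 𝓝 P, (q.1 : ℝ) < dim A P'.1 ∧ dim A P'.1 < q.2 :=
      (hc.eventually (lt_mem_nhds (show (q.1 : ℝ) < dim A P.1 by rw [hA]; exact hv1.1))).and
        (hc.eventually (gt_mem_nhds (show dim A P.1 < (q.2 : ℝ) by rw [hA]; exact hv1.2)))
    rw [nhds_subtype_eq_comap, eventually_comap] at h8
    obtain ⟨U, hU1, hU2, hU3⟩ := eventually_nhds_iff.1 h8
    obtain ⟨S, hS⟩ := exists_nb hU2 hU3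
    refine ⟨P.1, P.2, S, fun P' hP' hPS => ?_⟩
    have h9 := hU1 P' (hS P' hPS) ⟨P', hP'⟩ rfl
    exact ⟨_, (mem_values P' _).2 ⟨m, n, A, rfl⟩, h9⟩
  · intro r hr
    rw [Metric.mem_closure_iff]
    intro ε hε
    obtain ⟨a, ha1, ha2⟩ := exists_rat_btwn (show r - ε < r by linarith)
    obtain ⟨b, hb1, hb2⟩ := exists_rat_btwn (show r < r + ε by linarith)
    obtain ⟨v, hv, hv1, hv2⟩ := hP1 (a, b) (hr (a, b) ha2 hb1)
    refine ⟨v, hv, ?_⟩
    rw [Real.dist_eq, abs_lt]
    constructor <;> linarith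

/-- **The Atiyah conjecture for generic quotients.** Let `Γ` be a countable group (for example the
free group on `k` letters, whose quotients are the marked groups with `k` generators). In the
compact space of all quotients of `Γ` those which satisfy the Atiyah conjecture over `ℚ` form a
`G_δ` set, and the torsion-free ones form a closed set. Let `X` be a closed set of quotients. Then
`X` is a Baire space, at comeagre many points of `X` the kernel dimensions of all integral matrices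
over `Γ` are continuous functions on `X`, and the following are equivalent.

1. The quotients in `X` which satisfy the Atiyah conjecture are dense in `X`.
2. They are comeagre in `X`.
3. There is no robust counterexample in `X`: no integral matrix `A` over `Γ`, `P₀` in `X` and finite
   set `S` such that, for an integer `z` and `ε > 0`, the kernel dimension of `A` is in
   `[z + ε, z + 1 - ε]` for all quotients in `X` with the same relations in `S` as `P₀`.

If `𝒞` is a class of groups closed under subgroups and direct products (for example the torsion-free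
groups), then the closure of the set of all kernel dimensions of rational matrices is the same for
comeagre many quotients in `𝒞` of the free group on countably many letters; in particular Atiyah
holds for comeagre many of them or fails for comeagre many of them.
-/
theorem result :
    (∀ (Γ : Type) [Group Γ] [Countable Γ],
      IsGδ {P : Quot Γ | Atiyah P.grp} ∧ IsClosed {P : Quot Γ | TorsionFree P.grp} ∧
      ∀ X : Set (Quot Γ), IsClosed X →
        BaireSpace X ∧
        (∀ᶠ P in residual X, ∀ (m n : ℕ) (A : Matrix (Fin m) (Fin n) (Γ →₀ ℤ)),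
          ContinuousAt (fun P : X => dim A P.1) P) ∧
        List.TFAE [
          Dense {P : X | Atiyah P.1.grp},
          ∀ᶠ P in residual X, Atiyah P.1.grp,
          ¬ ∃ P₀ ∈ X, ∃ (S : Finset Γ) (m n : ℕ) (A : Matrix (Fin m) (Fin n) (Γ →₀ ℤ))
            (z : ℤ) (ε : ℝ), 0 < ε ∧ ∀ P ∈ X, (∀ s ∈ S, s ∈ P.rel ↔ s ∈ P₀.rel) →
              z + ε ≤ dim A P ∧ dim A P ≤ z + 1 - ε]) ∧
    ∀ 𝒞 : (G : Type) → [Group G] → Prop,
      (∀ (G H : Type) [Group G] [Group H] (f : G →* H), Function.Injective f → 𝒞 H → 𝒞 G) →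
      (∀ (G H : Type) [Group G] [Group H], 𝒞 G → 𝒞 H → 𝒞 (G × H)) →
      (∃ V : Set ℝ, ∀ᶠ P in residual {P : Quot (FreeGroup ℕ) // 𝒞 P.grp},
        closure (values P.1.grp) = V) ∧
      ((∀ᶠ P in residual {P : Quot (FreeGroup ℕ) // 𝒞 P.grp}, Atiyah P.1.grp) ∨
        ∀ᶠ P in residual {P : Quot (FreeGroup ℕ) // 𝒞 P.grp}, ¬ Atiyah P.1.grp) := by
  refine ⟨?_, fun 𝒞 hsub hprod => ?_⟩
  swap
  · obtain ⟨V, hV⟩ := generic_values 𝒞 hsub hprod
    refine ⟨⟨V, hV⟩, ?_⟩
    have key : ∀ P : Quot (FreeGroup ℕ), Atiyah P.grp ↔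
        closure (values P.grp) ⊆ Set.range ((↑) : ℤ → ℝ) := by
      intro P
      rw [(Int.isClosedEmbedding_coe_real.isClosed_range).closure_subset_iff]
      constructor
      · rintro h r ⟨m, n, A, rfl⟩
        obtain ⟨z, hz⟩ := h m n A
        exact ⟨z, hz.symm⟩
      · intro h m n A
        obtain ⟨z, hz⟩ := h ⟨m, n, A, rfl⟩
        exact ⟨z, hz.symm⟩
    by_cases h : V ⊆ Set.range ((↑) : ℤ → ℝ)
    · left
      filter_upwards [hV] with P hP
      rw [key, hP]
      exact h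
    · right
      filter_upwards [hV] with P hP
      rw [key, hP]
      exact h
  intro Γ _ _
  refine ⟨isGδ_atiyah, isClosed_tf, fun X hX => ?_⟩
  have hB := baire hX
  have hcont := cont_all X
  refine ⟨hB, hcont, ?_⟩
  tfae_have 1 → 2 := fun h => residual_of_dense_Gδ (isGδ_atiyah.preimage continuous_subtype_val) h
  tfae_have 2 → 1 := fun h => dense_of_mem_residual h
  tfae_have 1 → 3 := by
    rintro h ⟨P₀, hP₀, S, m, n, A, z, ε, hε, hA⟩
    obtain ⟨P, hP1, hP2⟩ := h.inter_open_nonempty (Subtype.val ⁻¹'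
      {P : Quot Γ | ∀ s ∈ S, s ∈ P.rel ↔ s ∈ P₀.rel})
      ((isOpen_nb P₀ S).preimage continuous_subtype_val) ⟨⟨P₀, hP₀⟩, fun s _ => Iff.rfl⟩
    obtain ⟨y, hy⟩ := (atiyah_iff P.1).1 hP2 m n A
    obtain ⟨h1, h2⟩ := hA P.1 P.2 hP1
    rw [hy] at h1 h2
    have h3 : (z : ℝ) < y := by linarith
    have h4 : (y : ℝ) < z + 1 := by linarith
    have h5 : z < y := by exact_mod_cast h3
    have h6 : y < z + 1 := by exact_mod_cast h4
    omega
  tfae_have 3 → 1 := by
    intro h3
    by_contra hcon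
    apply h3
    have h1 : (closure {P : X | Atiyah P.1.grp})ᶜ.Nonempty := by
      rw [Set.nonempty_compl]
      intro h
      exact hcon (dense_iff_closure_eq.2 h)
    obtain ⟨P₀, hP1, hP2⟩ := (dense_of_mem_residual hcont).inter_open_nonempty _
      isClosed_closure.isOpen_compl h1
    have h2 : ¬ Atiyah P₀.1.grp := fun h => hP1 (subset_closure h)
    rw [atiyah_iff] at h2
    push Not at h2
    obtain ⟨m, n, A, hA⟩ := h2
    have hc := hP2 m n A
    have h4 : ((⌊dim A P₀.1⌋ : ℤ) : ℝ) < dim A P₀.1 :=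
      lt_of_le_of_ne (Int.floor_le _) fun h => hA _ h.symm
    have h5 := Int.lt_floor_add_one (dim A P₀.1)
    set z : ℤ := ⌊dim A P₀.1⌋ with hz
    obtain ⟨ε, hε, h6, h7⟩ : ∃ ε : ℝ, 0 < ε ∧ (z : ℝ) + ε < dim A P₀.1 ∧
        dim A P₀.1 < z + 1 - ε := by
      refine ⟨min (dim A P₀.1 - z) (z + 1 - dim A P₀.1) / 2, ?_, ?_, ?_⟩
      · have : 0 < min (dim A P₀.1 - z) (z + 1 - dim A P₀.1) :=
          lt_min (by linarith) (by linarith)
        linarith
      · have := min_le_left (dim A P₀.1 - z) (z + 1 - dim A P₀.1)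
        linarith
      · have := min_le_right (dim A P₀.1 - z) (z + 1 - dim A P₀.1)
        linarith
    have h8 : ∀ᶠ P in 𝓝 P₀, (z : ℝ) + ε < dim A P.1 ∧ dim A P.1 < z + 1 - ε :=
      (hc.eventually (lt_mem_nhds h6)).and (hc.eventually (gt_mem_nhds h7))
    rw [nhds_subtype_eq_comap, eventually_comap] at h8
    obtain ⟨U, hU1, hU2, hU3⟩ := eventually_nhds_iff.1 h8
    obtain ⟨S, hS⟩ := exists_nb hU2 hU3
    refine ⟨P₀.1, P₀.2, S, m, n, A, z, ε, hε, fun P hP hPS => ?_⟩
    have h9 := hU1 P (hS P hPS) ⟨P, hP⟩ rfl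
    exact ⟨h9.1.le, h9.2.le⟩
  tfae_finish

end Pool.Agent.Results.MP_95030e_al.GenericQuotients
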